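import Pool.Agent.H4.SN.MinB
import Pool.Agent.H86.UN.Loc

/-!
Step (5). Author: helper57.
-/

namespace ALoop

open Equiv Pool.Agent.H4
open scoped commutatorElement

variable {Q : Type*} {G : Subgroup (Perm Q)} {L : Q → Perm Q} {J : Perm Q} {e : Q}

namespace Cmm

variable {M : Type*} [Group M] {K N S : Subgroup M}

private theorem mem_cj_conj {g s : M} (hs : s ∈ S) : g * s * g⁻¹ ∈ UM.cj g S := by
  rw [UM.mem_cj]
  have e : g⁻¹ * (g * s * g⁻¹) * g = s := by group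
  rwa [e]

/-- an element which centralises `S` and `CN N S` is 1 -/
private theorem eq1 [Finite M] (hm : SN.Mini K N S) {z : M} (hz : z ∈ K)
    (hzc : ∀ b ∈ SN.CN N S, z * b = b * z) (hzs : ∀ s ∈ S, z * s = s * z) : z = 1 :=
  hm.eq_one hz hzs hzc

/-- an element of order two centralising `CN N S` normalises `S` -/
private theorem nrm [Finite M] (hm : SN.Mini K N S) {z : M} (hz : z ∈ K) (hz1 : z ≠ 1)
    (hzc : ∀ b ∈ SN.CN N S, z * b = b * z) {s : M} (hs : s ∈ S) : z * s * z⁻¹ ∈ S := by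
  rcases hm.cj_or hz with h1 | h1
  · rw [← h1]
    exact mem_cj_conj hs
  · exfalso
    apply hz1
    apply eq1 hm hz hzc
    intro t ht
    have h2 : z * t * z⁻¹ ∈ SN.CN N S := h1 (mem_cj_conj ht)
    have h3 := hzc _ h2
    have h4 : z * t * z⁻¹ = t := by
      calc z * t * z⁻¹ = z⁻¹ * (z * (z * t * z⁻¹)) := by group
        _ = z⁻¹ * (z * t * z⁻¹ * z) := by rw [h3]
        _ = t := by group
    calc z * t = (z * t * z⁻¹) * z := by group
      _ = t * z := by rw [h4]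

/-- two elements with these properties commute -/
private theorem zcomm [Finite M] {S' : Subgroup M} (hm : SN.Mini K N S) (hm' : SN.Mini K N S')
    (hne : S ≠ S') {z w : M} (hz : z ∈ K) (hz1 : z ≠ 1) (hw : w ∈ K)
    (hzc : ∀ b ∈ SN.CN N S, z * b = b * z) (hwc : ∀ b ∈ SN.CN N S', w * b = b * w) :
    z * w = w * z := by
  have hS : S ≤ SN.CN N S' := hm'.two hm hne.symm
  have hzi : ∀ b ∈ SN.CN N S, z⁻¹ * b * z = b := by
    intro b hb
    rw [mul_assoc, ← hzc b hb, inv_mul_cancel_left]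
  have hwS : ∀ s ∈ S, w⁻¹ * s * w = s := by
    intro s hs
    rw [mul_assoc, ← hwc s (hS hs), inv_mul_cancel_left]
  have hzn : ∀ s ∈ S, z⁻¹ * s * z ∈ S := by
    intro s hs
    have h1 := nrm hm (K.inv_mem hz) (inv_ne_one.2 hz1) (fun b hb => by
      have h2 := hzi b hb
      calc z⁻¹ * b = (z⁻¹ * b * z) * z⁻¹ := by group
        _ = b * z⁻¹ := by rw [h2]) hs
    rwa [inv_inv] at h1
  have hg : z * w * z⁻¹ * w⁻¹ ∈ K := K.mul_mem (K.mul_mem (K.mul_mem hz hw) (K.inv_mem hz)) (K.inv_mem hw)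
  have h1 : z * w * z⁻¹ * w⁻¹ = 1 := by
    apply eq1 hm hg
    · intro b hb
      have h2 : w⁻¹ * b * w ∈ SN.CN N S := by
        refine ⟨?_, ?_⟩
        · have h3 := hm.inv w⁻¹ (K.inv_mem hw) b hb.1
          rwa [inv_inv] at h3
        · refine Subgroup.mem_centralizer_iff.2 ?_
          intro s hs
          have h3 := (Subgroup.mem_centralizer_iff.1 hb.2) s hs
          have h4 := hwS s hs
          calc s * (w⁻¹ * b * w) = (w⁻¹ * s * w) * (w⁻¹ * b * w) := by rw [h4]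
            _ = w⁻¹ * (s * b) * w := by group
            _ = w⁻¹ * (b * s) * w := by rw [h3]
            _ = w⁻¹ * b * w * (w⁻¹ * s * w) := by group
            _ = w⁻¹ * b * w * s := by rw [h4]
      have h5 := hzi _ h2
      have h6 : z⁻¹ * (w⁻¹ * b * w) * z = w⁻¹ * b * w := h5
      have h7 : z * b * z⁻¹ = b := by
        rw [hzc b hb, mul_inv_cancel_right]
      have h8 : (z * w * z⁻¹ * w⁻¹) * b * (z * w * z⁻¹ * w⁻¹)⁻¹ = b := by
        calc (z * w * z⁻¹ * w⁻¹) * b * (z * w * z⁻¹ * w⁻¹)⁻¹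
            = z * w * (z⁻¹ * (w⁻¹ * b * w) * z) * w⁻¹ * z⁻¹ := by group
          _ = z * w * (w⁻¹ * b * w) * w⁻¹ * z⁻¹ := by rw [h6]
          _ = z * b * z⁻¹ := by group
          _ = b := h7
      exact mul_inv_eq_iff_eq_mul.1 h8
    · intro s hs
      have h2 := hwS s hs
      have h3 := hzn s hs
      have h4 : w * (z⁻¹ * s * z) * w⁻¹ = z⁻¹ * s * z := by
        rw [hwc _ (hS h3), mul_inv_cancel_right]
      have h8 : (z * w * z⁻¹ * w⁻¹) * s * (z * w * z⁻¹ * w⁻¹)⁻¹ = s := by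
        calc (z * w * z⁻¹ * w⁻¹) * s * (z * w * z⁻¹ * w⁻¹)⁻¹
            = z * w * (z⁻¹ * (w⁻¹ * s * w) * z) * w⁻¹ * z⁻¹ := by group
          _ = z * (w * (z⁻¹ * s * z) * w⁻¹) * z⁻¹ := by rw [h2]; group
          _ = s := by rw [h4]; group
      exact mul_inv_eq_iff_eq_mul.1 h8
  calc z * w = (z * w * z⁻¹ * w⁻¹) * (w * z) := by group
    _ = w * z := by rw [h1, one_mul]

/-- an element commuting with `w` normalises `S'` -/
private theorem mnrm [Finite M] {S' : Subgroup M} (hm' : SN.Mini K N S')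
    {w m : M} (hw : w ∈ K) (hw1 : w ≠ 1) (hmK : m ∈ K)
    (hwc : ∀ b ∈ SN.CN N S', w * b = b * w) (hmw : m * w = w * m) {s : M} (hs : s ∈ S') :
    m * s * m⁻¹ ∈ S' := by
  rcases hm'.cj_or hmK with h1 | h1
  · rw [← h1]
    exact mem_cj_conj hs
  · exfalso
    apply hw1
    apply eq1 hm' hw hwc
    intro t ht
    have h2 : m * t * m⁻¹ ∈ SN.CN N S' := h1 (mem_cj_conj ht)
    have h3 := hwc _ h2
    have h4 : m⁻¹ * w * m = w := by
      rw [mul_assoc, ← hmw, inv_mul_cancel_left]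
    calc w * t = (m⁻¹ * w * m) * t := by rw [h4]
      _ = m⁻¹ * (w * (m * t * m⁻¹)) * m := by group
      _ = m⁻¹ * (m * t * m⁻¹ * w) * m := by rw [h3]
      _ = t * (m⁻¹ * w * m) := by group
      _ = t * w := by rw [h4]

end Cmm

namespace AL

private theorem zx_ne (h : AL G L J e) {x : Q} (hxe : x ≠ e) : D L J x * J ≠ 1 := by
  intro h1
  apply hxe
  apply h.D_inj
  rw [h.D_e]
  calc D L J x = (D L J x * J) * J := by rw [mul_assoc, h.JJ1, mul_one]
    _ = J := by rw [h1, one_mul]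

private theorem sqfix (h : AL G L J e) {x y : Q} (hJx : J x = x)
    (hyx : L x * (D L J y * J) = (D L J y * J) * L x) : L x (L x y) = y := by
  have h1 : L x (L x e) = e := by
    rw [h.Le]
    have := h.LJ x
    rwa [hJx] at this
  have hI : L x * L x ∈ Inn G e := ⟨G.mul_mem (h.memL x) (h.memL x), h1⟩
  have h2 : (L x * L x) * (D L J y * J) = (D L J y * J) * (L x * L x) := by
    rw [mul_assoc, hyx, ← mul_assoc, hyx, mul_assoc]
  exact (h.EE_cent hI).1 h2

/-- S5: step (5) -/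
theorem star_comm [Finite Q] (h : AL G L J e) {N S S' : Subgroup (Perm Q)}
    (hm : SN.Mini (Inn G e) N S) (hm' : SN.Mini (Inn G e) N S') (hne : S ≠ S') {x y : Q}
    (hJx : J x = x) (hxe : x ≠ e) (hJy : J y = y) (hye : y ≠ e)
    (hx : ∀ b ∈ SN.CN N S, (D L J x * J) * b = b * (D L J x * J))
    (hy : ∀ b ∈ SN.CN N S', (D L J y * J) * b = b * (D L J y * J)) :
    ∀ s ∈ S, ∀ s' ∈ S', (L x * s * (L x)⁻¹) * (L y * s' * (L y)⁻¹) =
      (L y * s' * (L y)⁻¹) * (L x * s * (L x)⁻¹) := by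
  have hzx : D L J x * J ∈ Inn G e := h.EE_Inn ⟨x, hJx, hxe, rfl⟩
  have hzy : D L J y * J ∈ Inn G e := h.EE_Inn ⟨y, hJy, hye, rfl⟩
  have hx1 := h.zx_ne hxe
  have hy1 := h.zx_ne hye
  have hS' : S' ≤ SN.CN N S := hm.two hm' hne
  have hS : S ≤ SN.CN N S' := hm'.two hm hne.symm
  have hcz := Cmm.zcomm hm hm' hne hzx hx1 hzy hx hy
  have hSI : ∀ s ∈ S, s ∈ Inn G e := fun s hs => hm.le (hm.nb.1 hs)
  have hSI' : ∀ s ∈ S', s ∈ Inn G e := fun s hs => hm.le (hm'.nb.1 hs)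
  have hyx : (D L J y * J) x = x := (h.EE_cent hzy).1 hcz.symm
  have hxy : (D L J x * J) y = y := (h.EE_cent hzx).1 hcz
  have hLx : (D L J y * J) * L x = L x * (D L J y * J) := h.comL hzy.1 hzy.2 hyx
  have hLy : (D L J x * J) * L y = L y * (D L J x * J) := h.comL hzx.1 hzx.2 hxy
  have hxS' : ∀ s ∈ S', s * L x = L x * s := by
    intro s hs
    have h1 := (h.EE_cent (hSI' s hs)).1 (hx s (hS' hs)).symm
    exact h.comL (hSI' s hs).1 (hSI' s hs).2 h1
  have hyS : ∀ s ∈ S, s * L y = L y * s := by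
    intro s hs
    have h1 := (h.EE_cent (hSI s hs)).1 (hy s (hS hs)).symm
    exact h.comL (hSI s hs).1 (hSI s hs).2 h1
  have hxxy : L x (L x y) = y := h.sqfix hJx hLx.symm
  have hyyx : L y (L y x) = x := h.sqfix hJy hLy.symm
  have hxi : (L x)⁻¹ y = L x y := by
    rw [Perm.inv_eq_iff_eq]
    exact hxxy.symm
  have hJxy : J (L x y) = L x y := by
    have h1 : D L J x y = y := by
      have h2 := hxy
      rw [Perm.mul_apply, hJy] at h2
      exact h2
    have h2 : L x (J ((L x)⁻¹ y)) = y := h1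
    rw [hxi] at h2
    have h3 : L x (J (L x y)) = L x (L x y) := by rw [h2, hxxy]
    exact (L x).injective h3
  have hcomm : L y x = L x y := by
    have h1 := h.aaip x y
    rw [hJx, hJy] at h1
    rw [← h1, hJxy]
  have hxx : L x x = e := by
    have h1 := h.LJ x
    rwa [hJx] at h1
  have hyy : L y y = e := by
    have h1 := h.LJ y
    rwa [hJy] at h1
  have hxie : (L x)⁻¹ x = e := by
    rw [Perm.inv_eq_iff_eq, h.Le]
  have hyie : (L y)⁻¹ y = e := by
    rw [Perm.inv_eq_iff_eq, h.Le]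
  have hmG : (L y)⁻¹ * (L x)⁻¹ * L y * L x ∈ G :=
    G.mul_mem (G.mul_mem (G.mul_mem (G.inv_mem (h.memL y)) (G.inv_mem (h.memL x))) (h.memL y))
      (h.memL x)
  have hme : ((L y)⁻¹ * (L x)⁻¹ * L y * L x) e = e := by
    rw [Perm.mul_apply, Perm.mul_apply, Perm.mul_apply, h.Le, hcomm]
    have h1 : (L x)⁻¹ (L x y) = y := by simp
    rw [h1, hyie]
  have hmx : ((L y)⁻¹ * (L x)⁻¹ * L y * L x) x = x := by
    rw [Perm.mul_apply, Perm.mul_apply, Perm.mul_apply, hxx, h.Le, hxi, ← hcomm]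
    simp
  have hmy : ((L y)⁻¹ * (L x)⁻¹ * L y * L x) y = y := by
    rw [Perm.mul_apply, Perm.mul_apply, Perm.mul_apply, ← hcomm, hyyx, hxie]
    rw [Perm.inv_eq_iff_eq]
    exact hyy.symm
  have hmI : (L y)⁻¹ * (L x)⁻¹ * L y * L x ∈ Inn G e := ⟨hmG, hme⟩
  have hmzy := (h.EE_cent hmI).2 hmy
  intro s hs s' hs'
  have hs'' := Cmm.mnrm hm' hzy hy1 hmI hy hmzy hs'
  set m := (L y)⁻¹ * (L x)⁻¹ * L y * L x with hmdef
  set t := m * s' * m⁻¹ with ht
  have h1 : L x * (L y * t * (L y)⁻¹) * (L x)⁻¹ = L y * s' * (L y)⁻¹ := by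
    have h2 : L x * L y * m = L y * L x := by rw [hmdef]; group
    have h3 : L x * s' * (L x)⁻¹ = s' := by
      rw [← hxS' s' hs', mul_inv_cancel_right]
    calc L x * (L y * t * (L y)⁻¹) * (L x)⁻¹
        = (L x * L y * m) * s' * (L x * L y * m)⁻¹ := by rw [ht]; group
      _ = L y * (L x * s' * (L x)⁻¹) * (L y)⁻¹ := by rw [h2]; group
      _ = L y * s' * (L y)⁻¹ := by rw [h3]
  have h4 : s * t = t * s := (Subgroup.mem_centralizer_iff.1 (hS' hs'').2) s hs
  have h5 : s * (L y * t * (L y)⁻¹) = (L y * t * (L y)⁻¹) * s := by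
    calc s * (L y * t * (L y)⁻¹) = (s * L y) * t * (L y)⁻¹ := by group
      _ = L y * (s * t) * (L y)⁻¹ := by rw [hyS s hs]; group
      _ = L y * t * (s * (L y)⁻¹) := by rw [h4]; group
      _ = L y * t * ((L y)⁻¹ * (L y * s) * (L y)⁻¹) := by group
      _ = L y * t * ((L y)⁻¹ * (s * L y) * (L y)⁻¹) := by rw [hyS s hs]
      _ = (L y * t * (L y)⁻¹) * s := by group
  rw [← h1]
  calc L x * s * (L x)⁻¹ * (L x * (L y * t * (L y)⁻¹) * (L x)⁻¹)
      = L x * (s * (L y * t * (L y)⁻¹)) * (L x)⁻¹ := by group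
    _ = L x * ((L y * t * (L y)⁻¹) * s) * (L x)⁻¹ := by rw [h5]
    _ = L x * (L y * t * (L y)⁻¹) * (L x)⁻¹ * (L x * s * (L x)⁻¹) := by group

end AL

end ALoop
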