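import Pool.Agent.H4.UM.Perf

/-!
Minimal normal subgroups of a minimal invariant subgroup: definitions.
-/

open scoped commutatorElement

namespace Pool.Agent.H4.SN

/-- S7 (pure group theory, `N` minimal `K`-invariant, centre trivial), with `Inv`, `NB`, `cj` and
`compl`, `abelian_bot`, `perfect_of_normal` of `Pool.Agent.H4.UM` (Perf.lean). -/
structure Mini {M : Type*} [Group M] (K N S : Subgroup M) : Prop where
  inv : UM.Inv K N
  le : N ≤ K
  ne : N ≠ ⊥
  min : ∀ C : Subgroup M, UM.Inv K C → C ≤ N → C = ⊥ ∨ C = N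
  center : ∀ x ∈ N, (∀ y ∈ N, x * y = y * x) → x = 1
  cent : ∀ g ∈ K, (∀ n ∈ N, g * n = n * g) → g = 1
  nb : UM.NB N S
  sne : S ≠ ⊥
  smin : ∀ C : Subgroup M, UM.NB N C → C ≤ S → C = ⊥ ∨ C = S

/-- the centraliser of `S` in `N` -/
def CN {M : Type*} [Group M] (N S : Subgroup M) : Subgroup M := N ⊓ Subgroup.centralizer (S : Set M)


end Pool.Agent.H4.SN
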