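import Mathlib

/-!
An element of even order: pure group theory.
-/

open scoped commutatorElement

namespace Pool.Agent.H4.SN

/-- S3a (pure group theory, step (3)): an element of even order `JvJv⁻¹` -/
theorem even_elt {M : Type*} [Group M] [Finite M] {t J : M} {S : Subgroup M} {K : Set M}
    (hJJ : J * J = 1) (hJS : ∀ a ∈ S, a * J = J * a)
    (hJK : ∀ b ∈ K, J * (t * b * t⁻¹) * J = (t * b * t⁻¹)⁻¹)
    (hodd : ∀ b ∈ K, Odd (orderOf b))
    (hbb : ∀ b ∈ K, (t * b * t⁻¹) * b = b * (t * b * t⁻¹))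
    (hvw : ∀ b ∈ K, ∀ c ∈ K, ((t * b * t⁻¹) * b⁻¹) * ((t * c * t⁻¹) * c) =
      ((t * c * t⁻¹) * c) * ((t * b * t⁻¹) * b⁻¹))
    (hKS : K ⊆ S) (hgen : S ≤ Subgroup.closure K)
    (hZ : ∀ a ∈ S, (∀ b ∈ S, a * b = b * a) → a = 1)
    {τ : M} (hτ : τ ∈ S) (hτ1 : τ ≠ 1) (hττ : τ * τ = 1) :
    ∃ v ∈ S ⊔ S.map (MulAut.conj t).toMonoidHom, Even (orderOf (J * v * J * v⁻¹)) := by
  set V : Subgroup M := Subgroup.closure {x | ∃ b ∈ K, x = (t * b * t⁻¹) * b⁻¹} with hV
  set W : Subgroup M := Subgroup.closure {x | ∃ c ∈ K, x = (t * c * t⁻¹) * c} with hW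
  -- V and W commute
  have hVW : ∀ v ∈ V, ∀ w ∈ W, Commute v w := by
    intro v hv w hw
    have h1 : V ≤ Subgroup.centralizer {x | ∃ c ∈ K, x = (t * c * t⁻¹) * c} := by
      rw [hV, Subgroup.closure_le]
      rintro x ⟨b, hb, rfl⟩
      rw [SetLike.mem_coe, Subgroup.mem_centralizer_iff]
      rintro y ⟨c, hc, rfl⟩
      exact (hvw b hb c hc).symm
    have h2 : W ≤ Subgroup.centralizer {v} := by
      rw [hW, Subgroup.closure_le]
      rintro x hx
      rw [SetLike.mem_coe, Subgroup.mem_centralizer_iff]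
      rintro y rfl
      exact ((Subgroup.mem_centralizer_iff.1 (h1 hv)) x hx).symm
    exact (Subgroup.mem_centralizer_iff.1 (h2 hw)) v rfl
  -- J swaps V and W
  have hJV : ∀ v ∈ V, J * v * J ∈ W := by
    intro v hv
    induction hv using Subgroup.closure_induction with
    | mem x hx =>
      obtain ⟨b, hb, rfl⟩ := hx
      have e : J * ((t * b * t⁻¹) * b⁻¹) * J = ((t * b * t⁻¹) * b)⁻¹ := by
        have h1 := hJS b (hKS hb)
        have h2 : b⁻¹ * J = J * b⁻¹ := by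
          calc b⁻¹ * J = b⁻¹ * (J * b) * b⁻¹ := by group
            _ = b⁻¹ * (b * J) * b⁻¹ := by rw [h1]
            _ = J * b⁻¹ := by group
        calc J * ((t * b * t⁻¹) * b⁻¹) * J = J * (t * b * t⁻¹) * (b⁻¹ * J) := by group
          _ = J * (t * b * t⁻¹) * J * b⁻¹ := by rw [h2]; group
          _ = (t * b * t⁻¹)⁻¹ * b⁻¹ := by rw [hJK b hb]
          _ = (b * (t * b * t⁻¹))⁻¹ := by group
          _ = _ := by rw [hbb b hb]
      rw [e]
      exact W.inv_mem (Subgroup.subset_closure ⟨b, hb, rfl⟩)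
    | one => simp [hJJ]
    | mul x y _ _ hx hy =>
      have e : J * (x * y) * J = (J * x * J) * (J * y * J) := by
        calc J * (x * y) * J = J * x * 1 * y * J := by group
          _ = J * x * (J * J) * y * J := by rw [hJJ]
          _ = _ := by group
      rw [e]
      exact W.mul_mem hx hy
    | inv x _ hx =>
      have hJi : J⁻¹ = J := inv_eq_of_mul_eq_one_left hJJ
      have e : J * x⁻¹ * J = (J * x * J)⁻¹ := by
        rw [mul_inv_rev, mul_inv_rev, hJi, mul_assoc]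
      rw [e]
      exact W.inv_mem hx
  have hJW : ∀ w ∈ W, J * w * J ∈ V := by
    intro v hv
    induction hv using Subgroup.closure_induction with
    | mem x hx =>
      obtain ⟨b, hb, rfl⟩ := hx
      have e : J * ((t * b * t⁻¹) * b) * J = ((t * b * t⁻¹) * b⁻¹)⁻¹ := by
        have h1 := hJS b (hKS hb)
        have h3 : (t * b * t⁻¹)⁻¹ * b = b * (t * b * t⁻¹)⁻¹ := by
          calc (t * b * t⁻¹)⁻¹ * b = (t * b * t⁻¹)⁻¹ * (b * (t * b * t⁻¹)) * (t * b * t⁻¹)⁻¹ := by
                group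
            _ = (t * b * t⁻¹)⁻¹ * ((t * b * t⁻¹) * b) * (t * b * t⁻¹)⁻¹ := by rw [hbb b hb]
            _ = b * (t * b * t⁻¹)⁻¹ := by group
        calc J * ((t * b * t⁻¹) * b) * J = J * (t * b * t⁻¹) * (b * J) := by group
          _ = J * (t * b * t⁻¹) * J * b := by rw [h1]; group
          _ = (t * b * t⁻¹)⁻¹ * b := by rw [hJK b hb]
          _ = b * (t * b * t⁻¹)⁻¹ := h3
          _ = _ := by group
      rw [e]
      exact V.inv_mem (Subgroup.subset_closure ⟨b, hb, rfl⟩)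
    | one => simp [hJJ]
    | mul x y _ _ hx hy =>
      have e : J * (x * y) * J = (J * x * J) * (J * y * J) := by
        calc J * (x * y) * J = J * x * 1 * y * J := by group
          _ = J * x * (J * J) * y * J := by rw [hJJ]
          _ = _ := by group
      rw [e]
      exact V.mul_mem hx hy
    | inv x _ hx =>
      have hJi : J⁻¹ = J := inv_eq_of_mul_eq_one_left hJJ
      have e : J * x⁻¹ * J = (J * x * J)⁻¹ := by
        rw [mul_inv_rev, mul_inv_rev, hJi, mul_assoc]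
      rw [e]
      exact V.inv_mem hx
  -- every element of S is a product
  have hprod : ∀ a ∈ Subgroup.closure K, ∃ v ∈ V, ∃ w ∈ W, a = v * w := by
    intro a ha
    induction ha using Subgroup.closure_induction with
    | mem b hb =>
      obtain ⟨m, hm⟩ := hodd b hb
      have hv : (t * b * t⁻¹) * b⁻¹ ∈ V := Subgroup.subset_closure ⟨b, hb, rfl⟩
      have hw : (t * b * t⁻¹) * b ∈ W := Subgroup.subset_closure ⟨b, hb, rfl⟩
      refine ⟨(((t * b * t⁻¹) * b⁻¹)⁻¹) ^ (m + 1), V.pow_mem (V.inv_mem hv) _,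
        ((t * b * t⁻¹) * b) ^ (m + 1), W.pow_mem hw _, ?_⟩
      have hc : Commute (((t * b * t⁻¹) * b⁻¹)⁻¹) ((t * b * t⁻¹) * b) :=
        (hVW _ hv _ hw).inv_left
      rw [← hc.mul_pow]
      have e : ((t * b * t⁻¹) * b⁻¹)⁻¹ * ((t * b * t⁻¹) * b) = b ^ 2 := by
        rw [pow_two]
        calc ((t * b * t⁻¹) * b⁻¹)⁻¹ * ((t * b * t⁻¹) * b) = b * b := by group
          _ = b * b := rfl
      rw [e, ← pow_mul]
      have h4 : 2 * (m + 1) = orderOf b + 1 := by omega
      rw [h4, pow_succ, pow_orderOf_eq_one, one_mul]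
    | one => exact ⟨1, V.one_mem, 1, W.one_mem, by group⟩
    | mul x y _ _ hx hy =>
      obtain ⟨v, hv, w, hw, rfl⟩ := hx
      obtain ⟨v', hv', w', hw', rfl⟩ := hy
      refine ⟨v * v', V.mul_mem hv hv', w * w', W.mul_mem hw hw', ?_⟩
      have h1 : w * v' = v' * w := ((hVW v' hv' w hw).eq).symm
      calc v * w * (v' * w') = v * (w * v') * w' := by group
        _ = v * (v' * w) * w' := by rw [h1]
        _ = _ := by group
    | inv x _ hx =>
      obtain ⟨v, hv, w, hw, rfl⟩ := hx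
      refine ⟨v⁻¹, V.inv_mem hv, w⁻¹, W.inv_mem hw, ?_⟩
      rw [mul_inv_rev]
      exact ((hVW _ (V.inv_mem hv) _ (W.inv_mem hw)).eq).symm
  obtain ⟨v, hv, w, hw, hvw1⟩ := hprod τ (hgen hτ)
  have hVS : V ≤ S ⊔ S.map (MulAut.conj t).toMonoidHom := by
    rw [hV, Subgroup.closure_le]
    rintro x ⟨b, hb, rfl⟩
    refine Subgroup.mul_mem _ (Subgroup.mem_sup_right ?_)
      (Subgroup.mem_sup_left (S.inv_mem (hKS hb)))
    exact ⟨b, hKS hb, by simp⟩
  refine ⟨v, hVS hv, ?_⟩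
  by_contra hne
  rw [Nat.not_even_iff_odd] at hne
  set n := orderOf (J * v * J * v⁻¹) with hn
  have hv' : J * v * J ∈ W := hJV v hv
  have hw' : J * w * J ∈ V := hJW w hw
  have hJτ : J * τ * J = τ := by
    calc J * τ * J = (J * τ) * J := by group
      _ = (τ * J) * J := by rw [hJS τ hτ]
      _ = τ * (J * J) := by group
      _ = τ := by rw [hJJ, mul_one]
  have h1 : v * w = (J * v * J) * (J * w * J) := by
    calc v * w = τ := hvw1.symm
      _ = J * τ * J := hJτ.symm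
      _ = J * (v * w) * J := by rw [← hvw1]
      _ = J * v * 1 * w * J := by group
      _ = J * v * (J * J) * w * J := by rw [hJJ]
      _ = _ := by group
  set v' := J * v * J with hv'd
  set w' := J * w * J with hw'd
  have hcvv' : Commute v v' := hVW v hv v' hv'
  -- s = v'⁻¹ w = v⁻¹ w'
  have h2 : v'⁻¹ * w = v⁻¹ * w' := by
    have h3 : v⁻¹ * v' = v' * v⁻¹ := (hcvv'.inv_left).eq
    calc v'⁻¹ * w = v'⁻¹ * (v⁻¹ * (v * w)) := by group
      _ = v'⁻¹ * (v⁻¹ * (v' * w')) := by rw [h1]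
      _ = v'⁻¹ * (v⁻¹ * v') * w' := by group
      _ = v'⁻¹ * (v' * v⁻¹) * w' := by rw [h3]
      _ = _ := by group
  set s := v'⁻¹ * w with hs
  have hsW : s ∈ W := W.mul_mem (W.inv_mem hv') hw
  have hsV : s ∈ V := by
    rw [h2]
    exact V.mul_mem (V.inv_mem hv) hw'
  have hτs : τ = v * v' * s := by
    rw [hvw1, hs]
    group
  have hpow : (v' * v⁻¹) ^ n = 1 := pow_orderOf_eq_one _
  have hvn : v' ^ n = v ^ n := by
    rw [(hcvv'.symm.inv_right).mul_pow, inv_pow] at hpow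
    exact mul_inv_eq_one.1 hpow
  have hτn : τ ^ n = v ^ n * v' ^ n * s ^ n := by
    have hc2 : Commute (v * v') s :=
      Commute.mul_left (hVW v hv s hsW) (hVW s hsV v' hv').symm
    rw [hτs, hc2.mul_pow, hcvv'.mul_pow]
  have hvnW : v ^ n ∈ W := by
    rw [← hvn]
    exact W.pow_mem hv' n
  have hvnV : v' ^ n ∈ V := by
    rw [hvn]
    exact V.pow_mem hv n
  have hτV : τ ^ n ∈ V := by
    rw [hτn]
    exact V.mul_mem (V.mul_mem (V.pow_mem hv n) hvnV) (V.pow_mem hsV n)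
  have hτW : τ ^ n ∈ W := by
    rw [hτn]
    exact W.mul_mem (W.mul_mem hvnW (W.pow_mem hv' n)) (W.pow_mem hsW n)
  have hττn : τ ^ n = τ := by
    obtain ⟨m, hm⟩ := hne
    rw [hm, pow_succ, pow_mul, pow_two, hττ, one_pow, one_mul]
  rw [hττn] at hτV hτW
  refine hτ1 (hZ τ hτ fun b hb => ?_)
  obtain ⟨v1, hv1, w1, hw1, rfl⟩ := hprod b (hgen hb)
  exact ((hVW v1 hv1 τ hτW).symm.mul_right (hVW τ hτV w1 hw1)).eq

end Pool.Agent.H4.SN
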