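import Mathlib

/-!
Interchange lemma: pure group theory.
-/

open scoped commutatorElement

namespace Pool.Agent.H4.SN

/-- `k^*^-1 (zkz)^*` -/
private def int_d {M : Type*} [Group M] (z t k : M) : M := (t * k * t⁻¹)⁻¹ * (t * (z * k * z) * t⁻¹)

private def int_P {M : Type*} [Group M] (z t k b : M) : M :=
  (int_d z t k)⁻¹ * b⁻¹ * int_d z t k * b

private theorem int_mul {M : Type*} [Group M] {z : M} (hzz : z * z = 1) (a b : M) :
    z * (a * b) * z = (z * a * z) * (z * b * z) := by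
  calc z * (a * b) * z = z * a * 1 * b * z := by group
    _ = z * a * (z * z) * b * z := by rw [hzz]
    _ = _ := by group

private theorem int_inv {M : Type*} [Group M] {z : M} (hzz : z * z = 1) (a : M) :
    z * a⁻¹ * z = (z * a * z)⁻¹ := by
  have h : z⁻¹ = z := inv_eq_of_mul_eq_one_left hzz
  rw [mul_inv_rev, mul_inv_rev, h, mul_assoc]

private theorem int_zz {M : Type*} [Group M] {z : M} (hzz : z * z = 1) (a : M) :
    z * (z * a * z) * z = a := by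
  calc z * (z * a * z) * z = (z * z) * a * (z * z) := by group
    _ = a := by rw [hzz, one_mul, mul_one]

private theorem int_conj {M : Type*} [Group M] {t u v : M} (h : u * v = v * u) :
    Commute (t * u * t⁻¹) (t * v * t⁻¹) := by
  show t * u * t⁻¹ * (t * v * t⁻¹) = t * v * t⁻¹ * (t * u * t⁻¹)
  calc t * u * t⁻¹ * (t * v * t⁻¹) = t * (u * v) * t⁻¹ := by group
    _ = t * (v * u) * t⁻¹ := by rw [h]
    _ = _ := by group

/-- the equality of the two forms of `P` -/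
private theorem int_key {M : Type*} [Group M] {a b X Y Xb Yb : M} (hab : a * b = b * a)
    (c1 : Commute X Y) (c2 : Commute X Yb) (c3 : Commute Xb Y)
    (h1 : a⁻¹ * (Xb * X⁻¹) * a = X⁻¹ * Xb) (h2 : b⁻¹ * (Yb * Y⁻¹) * b = Y⁻¹ * Yb)
    (h3 : (a * b)⁻¹ * (Xb * Yb * (X * Y)⁻¹) * (a * b) = (X * Y)⁻¹ * (Xb * Yb)) :
    (X⁻¹ * Xb)⁻¹ * b⁻¹ * (X⁻¹ * Xb) * b = (Y⁻¹ * Yb) * a⁻¹ * (Y⁻¹ * Yb)⁻¹ * a := by
  have e1 : Xb * Yb * (X * Y)⁻¹ = (Xb * X⁻¹) * (Yb * Y⁻¹) := by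
    have c : X⁻¹ * (Yb * Y⁻¹) = (Yb * Y⁻¹) * X⁻¹ := (c2.inv_left.mul_right c1.inv_inv).eq
    calc Xb * Yb * (X * Y)⁻¹ = Xb * ((Yb * Y⁻¹) * X⁻¹) := by group
      _ = Xb * (X⁻¹ * (Yb * Y⁻¹)) := by rw [c]
      _ = _ := by group
  have e2 : (X * Y)⁻¹ * (Xb * Yb) = (X⁻¹ * Xb) * (Y⁻¹ * Yb) := by
    have c : Y⁻¹ * (X⁻¹ * Xb) = (X⁻¹ * Xb) * Y⁻¹ :=
      (c1.symm.inv_inv.mul_right c3.symm.inv_left).eq
    calc (X * Y)⁻¹ * (Xb * Yb) = (Y⁻¹ * (X⁻¹ * Xb)) * Yb := by group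
      _ = ((X⁻¹ * Xb) * Y⁻¹) * Yb := by rw [c]
      _ = _ := by group
  rw [e1, e2] at h3
  obtain ⟨α, hα⟩ : ∃ α, α = X⁻¹ * Xb := ⟨_, rfl⟩
  obtain ⟨β, hβ⟩ : ∃ β, β = Y⁻¹ * Yb := ⟨_, rfl⟩
  rw [← hα] at h1 h3 ⊢
  rw [← hβ] at h2 h3 ⊢
  have f1 : Xb * X⁻¹ = a * α * a⁻¹ := by
    rw [← h1]
    group
  have f2 : Yb * Y⁻¹ = b * β * b⁻¹ := by
    rw [← h2]
    group
  rw [f1, f2] at h3
  have h4 : b⁻¹ * α * b * (a⁻¹ * β * a) = α * β := by
    rw [← h3]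
    have g1 : a⁻¹ * b = b * a⁻¹ := by
      calc a⁻¹ * b = a⁻¹ * (b * a) * a⁻¹ := by group
        _ = a⁻¹ * (a * b) * a⁻¹ := by rw [hab]
        _ = b * a⁻¹ := by group
    have g2 : b⁻¹ * (a * b) = a := by
      rw [hab]
      group
    calc b⁻¹ * α * b * (a⁻¹ * β * a) = b⁻¹ * α * (b * a⁻¹) * β * a := by group
      _ = b⁻¹ * α * (a⁻¹ * b) * β * (b⁻¹ * (a * b)) := by rw [g1, g2]
      _ = _ := by group
  calc α⁻¹ * b⁻¹ * α * b = α⁻¹ * (b⁻¹ * α * b * (a⁻¹ * β * a)) * (a⁻¹ * β * a)⁻¹ := by group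
    _ = α⁻¹ * (α * β) * (a⁻¹ * β * a)⁻¹ := by rw [h4]
    _ = _ := by group

/-- S1a (pure group theory, step (1)) -/
theorem interchange {M : Type*} [Group M] {z t J : M} {A B : Subgroup M}
    (hJJ : J * J = 1) (hzz : z * z = 1)
    (hJA : ∀ a ∈ A, a * J = J * a) (hJB : ∀ b ∈ B, b * J = J * b)
    (hJt : ∀ a ∈ A, J * (t * a * t⁻¹) * J = t * (z * a * z) * t⁻¹)
    (hAB : ∀ a ∈ A, ∀ b ∈ B, a * b = b * a)
    (hzA : ∀ a ∈ A, z * a * z ∈ A) (hzB : ∀ b ∈ B, z * b * z ∈ B)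
    (hW : ∀ a ∈ A, ∀ b ∈ B, (a * b)⁻¹ * (t * (z * (a * b) * z) * t⁻¹ * (t * (a * b) * t⁻¹)⁻¹) *
      (a * b) = (t * (a * b) * t⁻¹)⁻¹ * (t * (z * (a * b) * z) * t⁻¹))
    (hgen : A ≤ Subgroup.closure {x | ∃ k ∈ A, k⁻¹ * (z * k * z) = x})
    (hperf : A ≤ ⁅A, A⁆) :
    ∀ a ∈ A, ∀ b ∈ B, (t * a * t⁻¹) * b = b * (t * a * t⁻¹) := by
  have hJi : J⁻¹ = J := inv_eq_of_mul_eq_one_left hJJ
  -- the second form of P
  have L1 : ∀ a ∈ A, ∀ b ∈ B, int_P z t a b =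
      int_d z t b * a⁻¹ * (int_d z t b)⁻¹ * a := by
    intro a ha b hb
    have w1 := hW a ha 1 B.one_mem
    have w2 := hW 1 A.one_mem b hb
    have w3 := hW a ha b hb
    rw [mul_one] at w1
    rw [one_mul] at w2
    have m1 : t * (z * (a * b) * z) * t⁻¹ = t * (z * a * z) * t⁻¹ * (t * (z * b * z) * t⁻¹) := by
      rw [int_mul hzz]
      group
    have m2 : t * (a * b) * t⁻¹ = t * a * t⁻¹ * (t * b * t⁻¹) := by group
    rw [m1, m2] at w3
    exact int_key (hAB a ha b hb) (int_conj (hAB a ha b hb)) (int_conj (hAB a ha _ (hzB b hb)))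
      (int_conj (hAB _ (hzA a ha) b hb)) w1 w2 w3
  have L2 : ∀ k b1 b2 : M, int_P z t k (b1 * b2) =
      int_P z t k b2 * (b2⁻¹ * int_P z t k b1 * b2) := by
    intro k b1 b2
    unfold int_P
    group
  have L3 : ∀ k1 ∈ A, ∀ k2 ∈ A, ∀ b ∈ B, int_P z t (k1 * k2) b =
      int_P z t k2 b * (k2⁻¹ * int_P z t k1 b * k2) := by
    intro k1 h1 k2 h2 b hb
    rw [L1 _ (A.mul_mem h1 h2) b hb, L1 _ h1 b hb, L1 _ h2 b hb]
    group
  have P1b : ∀ b : M, int_P z t 1 b = 1 := by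
    intro b
    have : int_d z t 1 = 1 := by
      unfold int_d
      rw [mul_one z, hzz]
      group
    unfold int_P
    rw [this]
    group
  have Pk1 : ∀ k : M, int_P z t k 1 = 1 := by
    intro k
    unfold int_P
    group
  -- commutation
  have L4 : ∀ k1 ∈ A, ∀ k2 ∈ A, ∀ b1 ∈ B, ∀ b2 ∈ B,
      Commute (k2⁻¹ * int_P z t k1 b2 * k2) (b2⁻¹ * int_P z t k2 b1 * b2) := by
    intro k1 h1 k2 h2 b1 g1 b2 g2
    have e1 := L2 (k1 * k2) b1 b2
    rw [L3 k1 h1 k2 h2 b2 g2, L3 k1 h1 k2 h2 b1 g1] at e1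
    have e2 := L3 k1 h1 k2 h2 (b1 * b2) (B.mul_mem g1 g2)
    rw [L2 k2 b1 b2, L2 k1 b1 b2] at e2
    rw [e1] at e2
    have c : k2⁻¹ * b2⁻¹ = b2⁻¹ * k2⁻¹ := by
      rw [← mul_inv_rev, ← mul_inv_rev, hAB k2 h2 b2 g2]
    have c' : b2 * k2 = k2 * b2 := (hAB k2 h2 b2 g2).symm
    generalize int_P z t k2 b2 = W at e2
    generalize int_P z t k1 b2 = p at e2 ⊢
    generalize int_P z t k2 b1 = r at e2 ⊢
    generalize int_P z t k1 b1 = s at e2
    have e3 : W * ((k2⁻¹ * p * k2) * (b2⁻¹ * r * b2)) * (b2⁻¹ * k2⁻¹ * s * (k2 * b2)) =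
        W * ((b2⁻¹ * r * b2) * (k2⁻¹ * p * k2)) * (k2⁻¹ * b2⁻¹ * s * (b2 * k2)) := by
      calc _ = W * (k2⁻¹ * p * k2) * (b2⁻¹ * (r * (k2⁻¹ * s * k2)) * b2) := by group
        _ = W * (b2⁻¹ * r * b2) * (k2⁻¹ * (p * (b2⁻¹ * s * b2)) * k2) := e2
        _ = _ := by group
    rw [c, c'] at e3
    exact mul_left_cancel (mul_right_cancel e3)
  have L5 : ∀ k ∈ A, ∀ k' ∈ A, ∀ b ∈ B, ∀ b' ∈ B,
      Commute ((int_P z t k b)⁻¹ * int_P z t k' b) ((int_P z t k b)⁻¹ * int_P z t k b') := by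
    intro k hk k' hk' b hb b' hb'
    have h := L4 (k' * k⁻¹) (A.mul_mem hk' (A.inv_mem hk)) k hk (b' * b⁻¹)
      (B.mul_mem hb' (B.inv_mem hb)) b hb
    have e1 : (int_P z t k b)⁻¹ * int_P z t k' b = k⁻¹ * int_P z t (k' * k⁻¹) b * k := by
      have := L3 (k' * k⁻¹) (A.mul_mem hk' (A.inv_mem hk)) k hk b hb
      rw [inv_mul_cancel_right] at this
      rw [this]
      group
    have e2 : (int_P z t k b)⁻¹ * int_P z t k b' = b⁻¹ * int_P z t k (b' * b⁻¹) * b := by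
      have := L2 k (b' * b⁻¹) b
      rw [inv_mul_cancel_right] at this
      rw [this]
      group
    rw [e1, e2]
    exact h
  have L5a : ∀ k ∈ A, ∀ b ∈ B, ∀ b' ∈ B, Commute (int_P z t k b) (int_P z t k b') := by
    intro k hk b hb b' hb'
    have h := L5 k hk 1 A.one_mem b hb b' hb'
    rw [P1b, mul_one] at h
    have h1 : Commute (int_P z t k b) ((int_P z t k b)⁻¹ * int_P z t k b') := by
      have := h.inv_left
      rwa [inv_inv] at this
    have h2 := (Commute.refl (int_P z t k b)).mul_right h1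
    rwa [mul_inv_cancel_left] at h2
  have L5b : ∀ k ∈ A, ∀ k' ∈ A, ∀ b ∈ B, Commute (int_P z t k b) (int_P z t k' b) := by
    intro k hk k' hk' b hb
    have h := L5 k hk k' hk' b hb 1 B.one_mem
    rw [Pk1, mul_one] at h
    have h1 : Commute (int_P z t k b) ((int_P z t k b)⁻¹ * int_P z t k' b) := by
      have := h.symm.inv_left
      rwa [inv_inv] at this
    have h2 := (Commute.refl (int_P z t k b)).mul_right h1
    rwa [mul_inv_cancel_left] at h2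
  -- J
  have Jmul : ∀ x y : M, J * (x * y) * J = (J * x * J) * (J * y * J) := int_mul hJJ
  have Jinv : ∀ x : M, J * x⁻¹ * J = (J * x * J)⁻¹ := int_inv hJJ
  have Jd : ∀ k ∈ A, J * int_d z t k * J = int_d z t (z * k * z) := by
    intro k hk
    unfold int_d
    rw [Jmul, Jinv, hJt k hk, hJt _ (hzA k hk)]
  have Jb : ∀ b ∈ B, J * b * J = b := by
    intro b hb
    rw [← hJB b hb, mul_assoc, hJJ, mul_one]
  have Ja : ∀ a ∈ A, J * a * J = a := by
    intro a ha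
    rw [← hJA a ha, mul_assoc, hJJ, mul_one]
  have JP : ∀ k ∈ A, ∀ b ∈ B, J * int_P z t k b * J = int_P z t (z * k * z) b := by
    intro k hk b hb
    unfold int_P
    rw [Jmul, Jmul, Jmul, Jinv, Jinv, Jd k hk, Jb b hb]
  have L7 : ∀ k ∈ A, ∀ k2 ∈ A, ∀ b ∈ B, k2⁻¹ * int_P z t k b * k2 =
      (z * k2 * z)⁻¹ * int_P z t k b * (z * k2 * z) := by
    intro k hk k2 h2 b hb
    have star : ∀ u ∈ A, ∀ v ∈ A, v⁻¹ * int_P z t u b * v =
        (int_P z t v b)⁻¹ * int_P z t (u * v) b := by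
      intro u hu v hv
      rw [L3 u hu v hv b hb]
      group
    have hk1 : z * k * z ∈ A := hzA k hk
    have s1 := congrArg (fun x => J * x * J) (star (z * k * z) hk1 k2 h2)
    rw [Jmul, Jmul, Jmul, Jinv, Jinv, Ja k2 h2, JP _ hk1 b hb, JP k2 h2 b hb,
      JP _ (A.mul_mem hk1 h2) b hb, int_mul hzz (z * k * z) k2, int_zz hzz] at s1
    rw [s1, star k hk (z * k2 * z) (hzA k2 h2)]
  have L8 : ∀ a ∈ A, ∀ k ∈ A, ∀ b ∈ B, a * int_P z t k b = int_P z t k b * a := by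
    intro a ha k hk b hb
    have hle : Subgroup.closure {x | ∃ k ∈ A, k⁻¹ * (z * k * z) = x} ≤
        Subgroup.centralizer {int_P z t k b} := by
      rw [Subgroup.closure_le]
      rintro x ⟨κ, hκ, rfl⟩
      have h := L7 k hk κ⁻¹ (A.inv_mem hκ) b hb
      rw [int_inv hzz, inv_inv, inv_inv] at h
      rw [SetLike.mem_coe, Subgroup.mem_centralizer_singleton_iff]
      calc κ⁻¹ * (z * κ * z) * int_P z t k b =
          κ⁻¹ * ((z * κ * z) * int_P z t k b * (z * κ * z)⁻¹) * (z * κ * z) := by group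
        _ = κ⁻¹ * (κ * int_P z t k b * κ⁻¹) * (z * κ * z) := by rw [h]
        _ = _ := by group
    have := hle (hgen ha)
    rwa [Subgroup.mem_centralizer_singleton_iff] at this
  have L9 : ∀ a ∈ A, ∀ b ∈ B, int_P z t a b = 1 := by
    intro a ha b hb
    have hmul : ∀ u ∈ A, ∀ v ∈ A, int_P z t (u * v) b = int_P z t v b * int_P z t u b := by
      intro u hu v hv
      rw [L3 u hu v hv b hb, mul_assoc, ← L8 v hv u hu b hb, inv_mul_cancel_left]
    have hinv : ∀ u ∈ A, int_P z t u⁻¹ b = (int_P z t u b)⁻¹ := by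
      intro u hu
      have h := hmul u hu u⁻¹ (A.inv_mem hu)
      rw [mul_inv_cancel, P1b] at h
      exact eq_inv_of_mul_eq_one_left h.symm
    let K : Subgroup M :=
      { carrier := {x | x ∈ A ∧ int_P z t x b = 1}
        mul_mem' := by
          rintro x y ⟨hx, hx1⟩ ⟨hy, hy1⟩
          exact ⟨A.mul_mem hx hy, by rw [hmul x hx y hy, hx1, hy1, one_mul]⟩
        one_mem' := ⟨A.one_mem, P1b b⟩
        inv_mem' := by
          rintro x ⟨hx, hx1⟩
          exact ⟨A.inv_mem hx, by rw [hinv x hx, hx1, inv_one]⟩ }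
    have hK : ⁅A, A⁆ ≤ K := by
      rw [Subgroup.commutator_le]
      intro u hu v hv
      refine ⟨A.mul_mem (A.mul_mem (A.mul_mem hu hv) (A.inv_mem hu)) (A.inv_mem hv), ?_⟩
      rw [commutatorElement_def, hmul _ (A.mul_mem (A.mul_mem hu hv) (A.inv_mem hu)) _ (A.inv_mem hv),
        hmul _ (A.mul_mem hu hv) _ (A.inv_mem hu), hmul u hu v hv, hinv u hu, hinv v hv,
        (L5b v hv u hu b hb).eq, inv_mul_cancel_left, inv_mul_cancel]
    exact (hK (hperf ha)).2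
  -- the end
  intro a ha b hb
  let K : Subgroup M := (Subgroup.centralizer {b}).comap (MulAut.conj t).toMonoidHom
  have hK : Subgroup.closure {x | ∃ k ∈ A, k⁻¹ * (z * k * z) = x} ≤ K := by
    rw [Subgroup.closure_le]
    rintro x ⟨κ, hκ, rfl⟩
    show (MulAut.conj t) (κ⁻¹ * (z * κ * z)) ∈ Subgroup.centralizer {b}
    rw [Subgroup.mem_centralizer_singleton_iff, MulAut.conj_apply]
    have h := L9 κ hκ b hb
    unfold int_P at h
    have e : t * (κ⁻¹ * (z * κ * z)) * t⁻¹ = int_d z t κ := by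
      unfold int_d
      group
    rw [e]
    calc int_d z t κ * b = b * int_d z t κ *
          ((int_d z t κ)⁻¹ * b⁻¹ * int_d z t κ * b) := by group
      _ = b * int_d z t κ := by rw [h, mul_one]
  have h1 : (MulAut.conj t) a ∈ Subgroup.centralizer {b} := hK (hgen ha)
  rwa [Subgroup.mem_centralizer_singleton_iff, MulAut.conj_apply] at h1

end Pool.Agent.H4.SN
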