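import Mathlib

/-!
Midpoint lemma: pure group theory.
-/

open scoped commutatorElement

namespace Pool.Agent.H4.SN

/-- S2a (pure group theory, step (2)): `b * c = k * h` -/
theorem vw_comm {M : Type*} [Group M] {z t b c k h : M} (hzz : z * z = 1)
    (hb : z * b * z = b⁻¹) (hc : z * c * z = c⁻¹) (hk : z * k * z = k⁻¹) (hh : z * h * z = h)
    (hbb : (t * b * t⁻¹) * b = b * (t * b * t⁻¹)) (hcc : (t * c * t⁻¹) * c = c * (t * c * t⁻¹))
    (hkk : (t * k * t⁻¹) * k = k * (t * k * t⁻¹)) (hht : t * h = h * t) (hbc : b * c = k * h) :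
    ((t * b * t⁻¹) * b⁻¹) * ((t * c * t⁻¹) * c) = ((t * c * t⁻¹) * c) * ((t * b * t⁻¹) * b⁻¹) := by
  have hzi : z⁻¹ = z := inv_eq_of_mul_eq_one_left hzz
  have hk1 : k = b * c * h⁻¹ := by rw [hbc]; group
  have hh' : z * h⁻¹ * z = h⁻¹ := by
    calc z * h⁻¹ * z = (z⁻¹ * h * z⁻¹)⁻¹ := by group
      _ = (z * h * z)⁻¹ := by rw [hzi]
      _ = h⁻¹ := by rw [hh]
  have hk2 : k = h * c * b := by
    have e1 : k⁻¹ = b⁻¹ * c⁻¹ * h⁻¹ := by
      calc k⁻¹ = z * k * z := hk.symm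
        _ = z * (b * 1 * c * 1 * h⁻¹) * z := by rw [hk1]; group
        _ = z * (b * (z * z) * c * (z * z) * h⁻¹) * z := by rw [hzz]
        _ = (z * b * z) * (z * c * z) * (z * h⁻¹ * z) := by group
        _ = b⁻¹ * c⁻¹ * h⁻¹ := by rw [hb, hc, hh']
    calc k = (k⁻¹)⁻¹ := by group
      _ = h * c * b := by rw [e1]; group
  have hth : t * h * t⁻¹ = h := by rw [hht]; group
  have hK1 : t * k * t⁻¹ = (t * b * t⁻¹) * (t * c * t⁻¹) * h⁻¹ := by
    calc t * k * t⁻¹ = (t * b * t⁻¹) * (t * c * t⁻¹) * (t * h * t⁻¹)⁻¹ := by rw [hk1]; group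
      _ = _ := by rw [hth]
  have hK2 : t * k * t⁻¹ = h * (t * c * t⁻¹) * (t * b * t⁻¹) := by
    calc t * k * t⁻¹ = (t * h * t⁻¹) * (t * c * t⁻¹) * (t * b * t⁻¹) := by rw [hk2]; group
      _ = _ := by rw [hth]
  have e3 : (t * b * t⁻¹) * (t * c * t⁻¹) * h⁻¹ * (h * c * b) =
      (b * c * h⁻¹) * (h * (t * c * t⁻¹) * (t * b * t⁻¹)) := by
    rw [← hK1, ← hK2, ← hk1, ← hk2]; exact hkk
  generalize t * b * t⁻¹ = B at *
  generalize t * c * t⁻¹ = C at *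
  have e4 : B * (C * c) * b = b * (C * c) * B := by
    calc B * (C * c) * b = B * C * h⁻¹ * (h * c * b) := by group
      _ = (b * c * h⁻¹) * (h * C * B) := e3
      _ = b * (c * C) * B := by group
      _ = b * (C * c) * B := by rw [hcc]
  have e5 : B * b⁻¹ = b⁻¹ * B := by
    calc B * b⁻¹ = b⁻¹ * (b * B) * b⁻¹ := by group
      _ = b⁻¹ * (B * b) * b⁻¹ := by rw [hbb]
      _ = b⁻¹ * B := by group
  calc B * b⁻¹ * (C * c) = b⁻¹ * (B * (C * c) * b) * b⁻¹ := by rw [e5]; group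
    _ = b⁻¹ * (b * (C * c) * B) * b⁻¹ := by rw [e4]
    _ = C * c * (B * b⁻¹) := by group

end Pool.Agent.H4.SN
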