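import Pool.Agent.H86.UN.Main
import Pool.Agent.H4.SN.Vw

/-!
Step (2) in the loop.
-/

namespace ALoop

open Equiv Pool.Agent.H4
open scoped commutatorElement

variable {Q : Type*} {G : Subgroup (Perm Q)} {L : Q → Perm Q} {J : Perm Q} {e : Q}

namespace AL

/-- S2b: step (2) in the loop -/
theorem mid [Finite Q] (h : AL G L J e) {x : Q} (hJx : J x = x) (hxe : x ≠ e)
    {S : Subgroup (Perm Q)} (hS : S ≤ Inn G e) (hzS : ∀ a ∈ S, D L J x * J * a * (D L J x * J) ∈ S)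
    (hodd : ∀ a ∈ S, Odd (orderOf (D L J x * J * (a * (D L J x * J) * a⁻¹))))
    {b c : Perm Q} (hb : b ∈ S) (hc : c ∈ S) (hbo : Odd (orderOf b)) (hco : Odd (orderOf c))
    (hzb : D L J x * J * b * (D L J x * J) = b⁻¹) (hzc : D L J x * J * c * (D L J x * J) = c⁻¹) :
    ((L x * b * (L x)⁻¹) * b⁻¹) * ((L x * c * (L x)⁻¹) * c) =
      ((L x * c * (L x)⁻¹) * c) * ((L x * b * (L x)⁻¹) * b⁻¹) := by
  have hzz := h.Z_sq (h.zx_mem hJx hxe)
  have hkey : ∀ a ∈ S, Odd (orderOf a) → D L J x * J * a * (D L J x * J) = a⁻¹ →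
      (L x * a * (L x)⁻¹) * a = a * (L x * a * (L x)⁻¹) := by
    intro a ha hao haz
    obtain ⟨-, -, h3⟩ := h.key' hJx (hS ha) hao haz
    calc (L x * a * (L x)⁻¹) * a = L x * (a * ((L x)⁻¹ * a * L x)) * (L x)⁻¹ := by group
      _ = L x * (((L x)⁻¹ * a * L x) * a) * (L x)⁻¹ := by rw [h3]
      _ = a * (L x * a * (L x)⁻¹) := by group
  have hcent := fun (g : Perm Q) (hg : g ∈ Inn G e) => h.EE_cent (x := x) hg
  set z := D L J x * J with hz
  have hzi : z⁻¹ = z := inv_eq_of_mul_eq_one_left hzz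
  set u := b * c * c * b with hu
  have huS : u ∈ S := S.mul_mem (S.mul_mem (S.mul_mem hb hc) hc) hb
  have hcz : z * c⁻¹ * z = c := by
    calc z * c⁻¹ * z = (z⁻¹ * c * z⁻¹)⁻¹ := by group
      _ = (z * c * z)⁻¹ := by rw [hzi]
      _ = c := by rw [hzc]; group
  have hbz : z * b⁻¹ * z = b := by
    calc z * b⁻¹ * z = (z⁻¹ * b * z⁻¹)⁻¹ := by group
      _ = (z * b * z)⁻¹ := by rw [hzi]
      _ = b := by rw [hzb]; group
  have hui : u = (z * ((b * c) * z * (b * c)⁻¹))⁻¹ := by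
    calc u = b * c * (z * c⁻¹ * z) * (z * b⁻¹ * z) := by rw [hcz, hbz]
      _ = b * c * z * c⁻¹ * (z * z) * b⁻¹ * z := by group
      _ = b * c * z * c⁻¹ * b⁻¹ * z := by rw [hzz]; group
      _ = b * c * z⁻¹ * c⁻¹ * b⁻¹ * z⁻¹ := by rw [hzi]
      _ = (z * ((b * c) * z * (b * c)⁻¹))⁻¹ := by group
  have huo : Odd (orderOf u) := by
    rw [hui, orderOf_inv]
    exact hodd _ (S.mul_mem hb hc)
  have hzu : z * u * z = u⁻¹ := by
    calc z * u * z = z * (b * 1 * c * 1 * c * 1 * b) * z := by rw [hu]; group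
      _ = z * (b * (z * z) * c * (z * z) * c * (z * z) * b) * z := by rw [hzz]
      _ = (z * b * z) * (z * c * z) * (z * c * z) * (z * b * z) := by group
      _ = u⁻¹ := by rw [hzb, hzc, hu]; group
  obtain ⟨m, hm⟩ := huo
  have hun : u ^ (2 * m + 1) = 1 := by rw [← hm, pow_orderOf_eq_one]
  have hzuj : ∀ j : ℕ, z * u ^ j * z = (u ^ j)⁻¹ := by
    intro j
    induction j with
    | zero => simp [hzz]
    | succ j ih =>
      calc z * u ^ (j + 1) * z = z * u ^ j * 1 * u * z := by rw [pow_succ]; group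
        _ = z * u ^ j * (z * z) * u * z := by rw [hzz]
        _ = (z * u ^ j * z) * (z * u * z) := by group
        _ = (u ^ j)⁻¹ * u⁻¹ := by rw [ih, hzu]
        _ = (u ^ (j + 1))⁻¹ := by rw [pow_succ']; group
  have hkS : u ^ (m + 1) ∈ S := S.pow_mem huS _
  have hkk2 : u ^ (m + 1) * u ^ (m + 1) = u := by
    have h2 : m + 1 + (m + 1) = 2 * m + 1 + 1 := by ring
    rw [← pow_add, h2, pow_succ, hun, one_mul]
  have hko : Odd (orderOf (u ^ (m + 1))) :=
    Odd.of_dvd_nat (show Odd (orderOf u) from ⟨m, hm⟩) (orderOf_pow_dvd (m + 1))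
  have hzk := hzuj (m + 1)
  set k := u ^ (m + 1) with hk
  have hgS : k⁻¹ * (b * c) ∈ S := S.mul_mem (S.inv_mem hkS) (S.mul_mem hb hc)
  have hzg : z * (k⁻¹ * (b * c)) * z = k⁻¹ * (b * c) := by
    have hzk' : z * k⁻¹ * z = k := by
      calc z * k⁻¹ * z = (z⁻¹ * k * z⁻¹)⁻¹ := by group
        _ = (z * k * z)⁻¹ := by rw [hzi]
        _ = k := by rw [hzk]; group
    calc z * (k⁻¹ * (b * c)) * z = z * (k⁻¹ * 1 * b * 1 * c) * z := by group
      _ = z * (k⁻¹ * (z * z) * b * (z * z) * c) * z := by rw [hzz]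
      _ = (z * k⁻¹ * z) * (z * b * z) * (z * c * z) := by group
      _ = k⁻¹ * (k * k) * b⁻¹ * c⁻¹ := by rw [hzk', hzb, hzc]; group
      _ = k⁻¹ * (b * c * c * b) * b⁻¹ * c⁻¹ := by rw [hkk2]
      _ = k⁻¹ * (b * c) := by group
  have hgz : (k⁻¹ * (b * c)) * z = z * (k⁻¹ * (b * c)) := by
    calc (k⁻¹ * (b * c)) * z = (z * z) * (k⁻¹ * (b * c)) * z := by rw [hzz]; group
      _ = z * (z * (k⁻¹ * (b * c)) * z) := by group
      _ = z * (k⁻¹ * (b * c)) := by rw [hzg]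
  have hgx : (k⁻¹ * (b * c)) x = x := (hcent _ (hS hgS)).1 hgz
  have hgL := h.comL (hS hgS).1 (hS hgS).2 hgx
  exact Pool.Agent.H4.SN.vw_comm hzz hzb hzc hzk hzg (hkey b hb hbo hzb) (hkey c hc hco hzc)
    (hkey k hkS hko hzk) hgL.symm (by group)

end AL

end ALoop
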