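import Pool.Agent.H86.UN.Loc

/-!
From an element of even order to an involution of the loop.
-/

namespace ALoop

open Equiv
open scoped commutatorElement

variable {Q : Type*} {G : Subgroup (Perm Q)} {L : Q → Perm Q} {J : Perm Q} {e : Q}

namespace AL

/-- S3b: step (3), last part: from `v` of `even_elt` to a point -/
theorem point_of_even [Finite Q] (h : AL G L J e) {v : Perm Q} (hv : v ∈ G)
    (heven : Even (orderOf (J * v * J * v⁻¹))) :
    ∃ p : Q, J p = p ∧ p ≠ e ∧ ∃ n : ℕ, D L J p * J = (J * v * J * v⁻¹) ^ n := by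
  have hJJ := h.JJ1
  have hDD := h.D_sq (v e)
  have hDq : v * J * v⁻¹ = D L J (v e) := by
    have h1 := h.D_conj hv e
    rwa [h.D_e] at h1
  obtain ⟨m, hm⟩ : ∃ m, m = D L J (v e) * J := ⟨_, rfl⟩
  have hmi : m⁻¹ = J * D L J (v e) := by
    rw [hm, mul_inv_rev, h.Jinv, inv_eq_of_mul_eq_one_left hDD]
  have hw : J * v * J * v⁻¹ = m⁻¹ := by
    rw [hmi, ← hDq]
    group
  have hJm : J * m * J = m⁻¹ := by
    rw [hmi, hm]
    calc J * (D L J (v e) * J) * J = J * D L J (v e) * (J * J) := by group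
      _ = J * D L J (v e) := by rw [hJJ, mul_one]
  obtain ⟨n, hn⟩ := heven
  rw [hw, orderOf_inv] at hn
  have hpos : 0 < orderOf m := orderOf_pos m
  have hPP : m ^ n * m ^ n = 1 := by
    rw [← pow_add, ← hn, pow_orderOf_eq_one]
  have hP1 : m ^ n ≠ 1 := by
    intro h1
    have h2 := orderOf_dvd_of_pow_eq_one h1
    have h3 := Nat.le_of_dvd (by omega) h2
    omega
  have hPi : (m ^ n)⁻¹ = m ^ n := inv_eq_of_mul_eq_one_left hPP
  have hJP : J * m ^ n * J = m ^ n := by
    have h1 : ∀ i : ℕ, J * m ^ i * J = (m⁻¹) ^ i := by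
      intro i
      induction i with
      | zero => rw [pow_zero, pow_zero, mul_one, hJJ]
      | succ i ih =>
        rw [pow_succ, pow_succ, h.Jmul, ih, hJm]
    rw [h1, inv_pow, hPi]
  obtain ⟨p, hp⟩ := h.pow_D (v e) n
  rw [← hm] at hp
  refine ⟨p, ?_, ?_, n, ?_⟩
  · apply h.D_inj
    rw [← h.D_J, hp]
    calc J * (m ^ n * J) * J = (J * m ^ n * J) * J := by group
      _ = m ^ n * J := by rw [hJP]
  · intro hpe
    rw [hpe, h.D_e] at hp
    apply hP1
    have h1 : 1 * J = m ^ n * J := by rw [one_mul]; exact hp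
    exact (mul_right_cancel h1).symm
  · rw [hp, hw, inv_pow, hPi, mul_assoc, hJJ, mul_one]


end AL

end ALoop
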