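import Pool.Agent.H86.UN.Loc

/-!
The identity (W*) and the action of `J`.
-/

namespace ALoop

open Equiv
open scoped commutatorElement

variable {Q : Type*} {G : Subgroup (Perm Q)} {L : Q → Perm Q} {J : Perm Q} {e : Q}

namespace AL

private theorem JL_Wst (h : AL G L J e) {x : Q} (hJx : J x = x) : J * L x = L x * D L J x := by
  have h1 := h.D_conj (h.memL x) x
  rw [h.LxLx hJx, h.D_e] at h1
  calc J * L x = (L x * D L J x * (L x)⁻¹) * L x := by rw [h1]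
    _ = L x * D L J x := by group

private theorem alg_Wst {M : Type*} [Group M] {z j c k D : M} (hz : z * z = 1)
    (hD : D = z * j) (hD' : D = j * z) (hc : c * j = j * c) (hk : k * D = D * k)
    (hg : c⁻¹ * z * k * c⁻¹ * D = D * (c⁻¹ * z * k * c⁻¹)) :
    z * c * z * c⁻¹ * k = k * c⁻¹ * z * c * z := by
  have hc' : j * c⁻¹ = c⁻¹ * j := by
    calc j * c⁻¹ = c⁻¹ * (c * j) * c⁻¹ := by group
      _ = c⁻¹ * (j * c) * c⁻¹ := by rw [hc]
      _ = c⁻¹ * j := by group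
  have h1 : D * (c⁻¹ * z * k * c⁻¹) = z * c⁻¹ * k * z * c⁻¹ * j := by
    calc D * (c⁻¹ * z * k * c⁻¹) = z * (j * c⁻¹) * z * k * c⁻¹ := by rw [hD]; group
      _ = z * c⁻¹ * (j * z) * k * c⁻¹ := by rw [hc']; group
      _ = z * c⁻¹ * (D * k) * c⁻¹ := by rw [← hD']; group
      _ = z * c⁻¹ * (k * D) * c⁻¹ := by rw [hk]
      _ = z * c⁻¹ * k * z * (j * c⁻¹) := by rw [hD]; group
      _ = z * c⁻¹ * k * z * c⁻¹ * j := by rw [hc']; group
  have h2 : c⁻¹ * z * k * c⁻¹ * D = c⁻¹ * z * k * c⁻¹ * z * j := by rw [hD]; group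
  rw [h1, h2] at hg
  have h3 : c⁻¹ * z * k * c⁻¹ * z = z * c⁻¹ * k * z * c⁻¹ := mul_right_cancel hg
  calc z * c * z * c⁻¹ * k = z * c * (z * c⁻¹ * k * z * c⁻¹) * c * z⁻¹ := by group
    _ = z * c * (c⁻¹ * z * k * c⁻¹ * z) * c * z⁻¹ := by rw [h3]
    _ = (z * z) * k * c⁻¹ * z * c * z⁻¹ := by group
    _ = k * c⁻¹ * z * c * z := by rw [hz, one_mul, inv_eq_of_mul_eq_one_left hz]

/-- S1b: (W*) for `c ∈ H` -/
theorem Wstar (h : AL G L J e) {x : Q} (hJx : J x = x) (hxe : x ≠ e) {c : Perm Q} (hc : c ∈ Inn G e) :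
    c⁻¹ * (L x * (D L J x * J * c * (D L J x * J)) * (L x)⁻¹ * (L x * c * (L x)⁻¹)⁻¹) * c =
      (L x * c * (L x)⁻¹)⁻¹ * (L x * (D L J x * J * c * (D L J x * J)) * (L x)⁻¹) := by
  have hJJ := h.JJ1
  have hZ := h.zx_mem hJx hxe
  have hz2 := h.Z_sq hZ
  have hzG := h.Z_mem hZ
  have hDJ := h.Dx_J hJx
  have hJL := JL_Wst h hJx
  have hcJ := h.comJ c hc.1 hc.2
  obtain ⟨z, hz⟩ : ∃ z, z = D L J x * J := ⟨_, rfl⟩
  rw [← hz] at hz2 hzG ⊢
  have hD : D L J x = z * J := by rw [hz, mul_assoc, hJJ, mul_one]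
  have hD' : D L J x = J * z := by rw [hz, hDJ, ← mul_assoc, hJJ, one_mul]
  have hR : ∀ q, L q x = L x (z q) := by
    intro q
    have h1 := h.R_apply q x
    rw [hJx] at h1
    rw [← h1, hJL, hD]
    show (L x * (z * J) * J) q = (L x * z) q
    congr 1
    calc L x * (z * J) * J = L x * z * (J * J) := by group
      _ = L x * z := by rw [hJJ, mul_one]
  obtain ⟨k, hk⟩ : ∃ k, k = (L x)⁻¹ * c * L x := ⟨_, rfl⟩
  have hkc : L x * k * (L x)⁻¹ = c := by rw [hk]; group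
  have hkG : k ∈ G := by
    rw [hk]
    exact G.mul_mem (G.mul_mem (G.inv_mem (h.memL x)) hc.1) (h.memL x)
  have hkD : k * D L J x = D L J x * k := by
    rw [hk]
    have hJL' : D L J x * (L x)⁻¹ = (L x)⁻¹ * J := by
      calc D L J x * (L x)⁻¹ = (L x)⁻¹ * (L x * D L J x) * (L x)⁻¹ := by group
        _ = (L x)⁻¹ * (J * L x) * (L x)⁻¹ := by rw [hJL]
        _ = (L x)⁻¹ * J := by group
    calc (L x)⁻¹ * c * L x * D L J x = (L x)⁻¹ * c * (L x * D L J x) := by group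
      _ = (L x)⁻¹ * c * (J * L x) := by rw [hJL]
      _ = (L x)⁻¹ * (c * J) * L x := by group
      _ = (L x)⁻¹ * J * c * L x := by rw [hcJ]; group
      _ = D L J x * (L x)⁻¹ * c * L x := by rw [hJL']
      _ = D L J x * ((L x)⁻¹ * c * L x) := by group
  have hgG : c⁻¹ * z * k * c⁻¹ ∈ G :=
    G.mul_mem (G.mul_mem (G.mul_mem (G.inv_mem hc.1) hzG) hkG) (G.inv_mem hc.1)
  have hgx : (c⁻¹ * z * k * c⁻¹) x = x := by
    have h1 : c (L x (c⁻¹ x)) = L x (z (c x)) := by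
      rw [h.aut hc.1 hc.2, apply_inv', hR]
    have h2 : k (c⁻¹ x) = z (c x) := by
      rw [hk]
      show (L x)⁻¹ (c (L x (c⁻¹ x))) = z (c x)
      rw [h1, inv_apply']
    show c⁻¹ (z (k (c⁻¹ x))) = x
    rw [h2]
    have h3 : z (z (c x)) = c x := by
      show (z * z) (c x) = c x
      rw [hz2]
      rfl
    rw [h3, inv_apply']
  have key := alg_Wst hz2 hD hD' hcJ hkD ((h.D_cent hgG x).2 hgx)
  have e1 : L x * (z * c * z) * (L x)⁻¹ * (L x * c * (L x)⁻¹)⁻¹ * c =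
      c * ((L x * c * (L x)⁻¹)⁻¹ * (L x * (z * c * z) * (L x)⁻¹)) := by
    calc L x * (z * c * z) * (L x)⁻¹ * (L x * c * (L x)⁻¹)⁻¹ * c
        = L x * (z * c * z * c⁻¹) * (L x)⁻¹ * c := by group
      _ = L x * (z * c * z * c⁻¹) * (L x)⁻¹ * (L x * k * (L x)⁻¹) := by rw [hkc]
      _ = L x * (z * c * z * c⁻¹ * k) * (L x)⁻¹ := by group
      _ = L x * (k * c⁻¹ * z * c * z) * (L x)⁻¹ := by rw [key]
      _ = (L x * k * (L x)⁻¹) * (L x * (c⁻¹ * z * c * z) * (L x)⁻¹) := by group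
      _ = c * (L x * (c⁻¹ * z * c * z) * (L x)⁻¹) := by rw [hkc]
      _ = c * ((L x * c * (L x)⁻¹)⁻¹ * (L x * (z * c * z) * (L x)⁻¹)) := by group
  rw [mul_assoc, e1, inv_mul_cancel_left]

/-- S1c: `J c^* J = (z c z)^*` -/
theorem J_star (h : AL G L J e) {x : Q} (hJx : J x = x) (hxe : x ≠ e) {c : Perm Q} (hc : c ∈ Inn G e) :
    J * (L x * c * (L x)⁻¹) * J = L x * (D L J x * J * c * (D L J x * J)) * (L x)⁻¹ := by
  have hJJ := h.JJ1
  have hDJ := h.Dx_J hJx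
  have hJL := JL_Wst h hJx
  have hcJ := h.comJ c hc.1 hc.2
  have hDD := h.D_sq x
  have hJL' : (L x)⁻¹ * J = D L J x * (L x)⁻¹ := by
    calc (L x)⁻¹ * J = (L x)⁻¹ * (J * L x) * (L x)⁻¹ := by group
      _ = (L x)⁻¹ * (L x * D L J x) * (L x)⁻¹ := by rw [hJL]
      _ = D L J x * (L x)⁻¹ := by group
  have h1 : D L J x * J * c * (D L J x * J) = D L J x * c * D L J x := by
    calc D L J x * J * c * (D L J x * J) = D L J x * (J * c) * (D L J x * J) := by group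
      _ = D L J x * (c * J) * (J * D L J x) := by rw [hcJ, hDJ]
      _ = D L J x * c * (J * J) * D L J x := by group
      _ = D L J x * c * D L J x := by rw [hJJ, mul_one]
  rw [h1]
  calc J * (L x * c * (L x)⁻¹) * J = (J * L x) * c * ((L x)⁻¹ * J) := by group
    _ = (L x * D L J x) * c * (D L J x * (L x)⁻¹) := by rw [hJL, hJL']
    _ = L x * (D L J x * c * D L J x) * (L x)⁻¹ := by group


end AL

end ALoop
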