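import Pool.Agent.H4.SN.MinB
import Pool.Agent.H4.SN.Int
import Pool.Agent.H4.SN.Wst
import Pool.Agent.H4.SN.MidL
import Pool.Agent.H4.SN.Evn
import Pool.Agent.H4.SN.Pnt

/-!
Step (4).
-/

namespace ALoop

open Equiv Pool.Agent.H4
open scoped commutatorElement

variable {Q : Type*} {G : Subgroup (Perm Q)} {L : Q → Perm Q} {J : Perm Q} {e : Q}

namespace AL

/-- S4, (i): an involution of the loop whose `z` normalises `S` and does not centralise it -/
theorem exists_nrm [Finite Q] (h : AL G L J e) (hcardQ : 2 ∣ Nat.card Q) {N S : Subgroup (Perm Q)}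
    (hm : SN.Mini (Inn G e) N S) (heven : Even (Nat.card N)) :
    ∃ z ∈ EE L J e, (∀ a ∈ S, z * a * z ∈ S) ∧ ∃ s ∈ S, z * s ≠ s * z := by
  obtain ⟨R, hR⟩ := exists_syl (Inn G e)
  obtain ⟨x₀, hxe₀, hJx₀, -⟩ := h.exists_x2 hcardQ hR
  have hz₀E : D L J x₀ * J ∈ EE L J e := ⟨x₀, hJx₀, hxe₀, rfl⟩
  have hz₀1 : D L J x₀ * J ≠ 1 := h.Z_ne (h.zx_mem hJx₀ hxe₀)
  obtain ⟨g, hg, s, hs, hgs⟩ := hm.exists_nc (h.EE_Inn hz₀E) hz₀1
  have hzE := h.EE_conj hz₀E hg
  set z := g * (D L J x₀ * J) * g⁻¹ with hz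
  have hzI := h.EE_Inn hzE
  have hzz := h.EE_sq hzE
  have hzi : z⁻¹ = z := inv_eq_of_mul_eq_one_left hzz
  by_cases hcj : UM.cj z S = S
  · refine ⟨z, hzE, ?_, s, hs, hgs⟩
    intro a ha
    rw [← hcj] at ha
    have h1 := UM.mem_cj.1 ha
    rwa [hzi] at h1
  · have hle : UM.cj z S ≤ SN.CN N S := (hm.cj_or hzI).resolve_left hcj
    obtain ⟨τ, hτ, hτ1, hττ⟩ := hm.invol heven
    have hτi : τ⁻¹ = τ := inv_eq_of_mul_eq_one_left hττ
    have hq : z * τ * z ∈ SN.CN N S := by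
      apply hle
      rw [UM.mem_cj, hzi]
      have e1 : z * (z * τ * z) * z = (z * z) * τ * (z * z) := by group
      rw [e1, hzz, one_mul, mul_one]
      exact hτ
    have hqS : ∀ s ∈ S, s * (z * τ * z) = (z * τ * z) * s := fun s hs =>
      Subgroup.mem_centralizer_iff.1 hq.2 s hs
    have hτS : τ ∈ Inn G e := hm.le (hm.nb.1 hτ)
    have hvE := h.EE_conj hzE hτS
    have hc : z * (τ * z * τ⁻¹) = (τ * z * τ⁻¹) * z := by
      rw [hτi]
      calc z * (τ * z * τ) = (z * τ * z) * τ := by group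
        _ = τ * (z * τ * z) := (hqS τ hτ).symm
        _ = τ * z * τ * z := by group
    have hneq : z ≠ τ * z * τ⁻¹ := by
      intro h1
      apply hτ1
      apply hm.scenter τ hτ
      intro y hy
      have h2 : z * τ * z = τ := by
        have h3 : z * τ = τ * z := by
          calc z * τ = (τ * z * τ⁻¹) * τ := by rw [← h1]
            _ = τ * z := by group
        rw [h3, mul_assoc, hzz, mul_one]
      have h3 := hqS y hy
      rw [h2] at h3
      exact h3.symm
    have hwE := h.EE_mul hzE hvE hc hneq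
    set w := z * (τ * z * τ⁻¹) with hw
    have hwe : w = (z * τ * z) * τ := by
      rw [hw, hτi]
      group
    have hww := h.EE_sq hwE
    have hwi : w⁻¹ = w := inv_eq_of_mul_eq_one_left hww
    have hact : ∀ s ∈ S, w * s * w = τ * s * τ⁻¹ := by
      intro s hs
      have h1 : τ * s * τ⁻¹ ∈ S := S.mul_mem (S.mul_mem hτ hs) (S.inv_mem hτ)
      have h2 := hqS _ h1
      calc w * s * w = w * s * w⁻¹ := by rw [hwi]
        _ = (z * τ * z) * (τ * s * τ⁻¹) * (z * τ * z)⁻¹ := by rw [hwe]; group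
        _ = (τ * s * τ⁻¹) * (z * τ * z) * (z * τ * z)⁻¹ := by rw [h2]
        _ = τ * s * τ⁻¹ := by rw [mul_inv_cancel_right]
    refine ⟨w, hwE, ?_, ?_⟩
    · intro a ha
      rw [hact a ha]
      exact S.mul_mem (S.mul_mem hτ ha) (S.inv_mem hτ)
    · by_contra hcon
      push Not at hcon
      apply hτ1
      apply hm.scenter τ hτ
      intro y hy
      have h1 := hact y hy
      have h2 : w * y * w = y := by
        rw [hcon y hy, mul_assoc, hww, mul_one]
      rw [h2] at h1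
      calc τ * y = (τ * y * τ⁻¹) * τ := by group
        _ = y * τ := by rw [← h1]

/-- S4, (ii) -/
theorem even_case [Finite Q] (h : AL G L J e) {S : Subgroup (Perm Q)} (hS : S ≤ Inn G e)
    {w : Perm Q} (hw : w ∈ EE L J e) (hwS : ∀ a ∈ S, w * a * w ∈ S) {m : Perm Q} (hm : m ∈ S)
    (hodd : ¬ Odd (orderOf (w * (m * w * m⁻¹)))) : ∃ t ∈ S, t ∈ EE L J e := by
  have hww := h.EE_sq hw
  have hwi : w⁻¹ = w := inv_eq_of_mul_eq_one_left hww
  have hmI := hS hm
  set u := w * (m * w * m⁻¹) with hu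
  have huB : u ∈ S := by
    have h1 := S.mul_mem (hwS m hm) (S.inv_mem hm)
    have h2 : w * m * w * m⁻¹ = u := by rw [hu]; group
    rwa [h2] at h1
  have hui : w * u * w = u⁻¹ := by
    have h1 : u⁻¹ = m * w⁻¹ * m⁻¹ * w⁻¹ := by rw [hu]; group
    rw [h1, hwi, hu]
    calc w * (w * (m * w * m⁻¹)) * w = (w * w) * (m * w * m⁻¹) * w := by group
      _ = m * w * m⁻¹ * w := by rw [hww, one_mul]
  rw [Nat.not_odd_iff_even] at hodd
  obtain ⟨k, hk⟩ := hodd
  have hpos := orderOf_pos u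
  have hk0 : 0 < k := by omega
  have htt : u ^ k * u ^ k = 1 := by rw [← pow_add, ← hk, pow_orderOf_eq_one]
  have ht1 : u ^ k ≠ 1 := by
    intro h1
    have h2 := orderOf_dvd_of_pow_eq_one h1
    have h3 := Nat.le_of_dvd hk0 h2
    omega
  have huI := hS huB
  have hmem : w * u ^ k ∈ EE L J e := by
    apply Pool.Agent.H86.UN.refl_mem hww hui
    · intro v hv
      have h1 := h.EE_conj hv ((Inn G e).inv_mem huI)
      rwa [inv_inv] at h1
    · exact hw
    · have h1 : w * u = m * w * m⁻¹ := by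
        rw [hu, ← mul_assoc, hww, one_mul]
      rw [h1]
      exact h.EE_conj hw hmI
  have hwk : w * u ^ k * w = u ^ k := by
    have h1 : ∀ j : ℕ, w * u ^ j * w = (u ^ j)⁻¹ := by
      intro j
      induction j with
      | zero => simp [hww]
      | succ j ih =>
        calc w * u ^ (j + 1) * w = (w * u ^ j * w) * (w⁻¹ * w⁻¹ * (w * u * w)) := by
              rw [pow_succ]; group
          _ = (u ^ j)⁻¹ * u⁻¹ := by rw [ih, hwi, hww, hui, one_mul]
          _ = (u ^ (j + 1))⁻¹ := by rw [pow_succ']; group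
    rw [h1 k]
    exact inv_eq_of_mul_eq_one_left htt
  have hc : w * (w * u ^ k) = (w * u ^ k) * w := by
    rw [hwk, ← mul_assoc, hww, one_mul]
  have hne : w ≠ w * u ^ k := by
    intro h1
    apply ht1
    have h2 : w * 1 = w * u ^ k := by rw [mul_one]; exact h1
    exact (mul_left_cancel h2).symm
  have ht := h.EE_mul hw hmem hc hne
  rw [← mul_assoc, hww, one_mul] at ht
  exact ⟨u ^ k, S.pow_mem huB k, ht⟩

/-- S4: step (4) -/
theorem exists_inv [Finite Q] (h : AL G L J e) (hcardQ : 2 ∣ Nat.card Q) {N S : Subgroup (Perm Q)}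
    (hm : SN.Mini (Inn G e) N S) (hne : S ≠ N) (heven : Even (Nat.card N)) :
    ∃ x : Q, J x = x ∧ x ≠ e ∧ ∀ b ∈ SN.CN N S, (D L J x * J) * b = b * (D L J x * J) := by
  obtain ⟨z, hzE, hzS, s₀, hs₀, hzs₀⟩ := h.exists_nrm hcardQ hm heven
  have hSI : S ≤ Inn G e := fun a ha => hm.le (hm.nb.1 ha)
  by_cases hev : ∃ a ∈ S, ¬ Odd (orderOf (z * (a * z * a⁻¹)))
  · obtain ⟨a, ha, hao⟩ := hev
    obtain ⟨t, htS, p, hJp, hpe, htp⟩ := h.even_case hSI hzE hzS ha hao
    refine ⟨p, hJp, hpe, fun b hb => ?_⟩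
    rw [← htp]
    exact Subgroup.mem_centralizer_iff.1 hb.2 t htS
  push Not at hev
  have hzI := h.EE_Inn hzE
  have hzz := h.EE_sq hzE
  have hzi : z⁻¹ = z := inv_eq_of_mul_eq_one_left hzz
  have hJJ := h.JJ1
  -- `z` normalises the centraliser
  have hSB : ∀ a ∈ S, ∀ b ∈ SN.CN N S, a * b = b * a := fun a ha b hb =>
    Subgroup.mem_centralizer_iff.1 hb.2 a ha
  have hzB : ∀ b ∈ SN.CN N S, z * b * z ∈ SN.CN N S := by
    intro b hb
    refine ⟨?_, ?_⟩
    · have h1 := hm.inv z hzI b hb.1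
      rwa [hzi] at h1
    · show z * b * z ∈ Subgroup.centralizer (S : Set (Perm Q))
      rw [Subgroup.mem_centralizer_iff]
      intro s hs
      have h1 := hSB _ (hzS s hs) b hb
      calc s * (z * b * z) = (z * z) * s * (z * b * z) := by rw [hzz, one_mul]
        _ = z * ((z * s * z) * b) * z := by group
        _ = z * (b * (z * s * z)) * z := by rw [h1]
        _ = z * b * z * s * (z * z) := by group
        _ = z * b * z * s := by rw [hzz, mul_one]
  -- `S` is generated by the commutators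
  have hgen : S = Subgroup.closure {x | ∃ k ∈ S, k⁻¹ * (z * k * z) = x} := by
    have hTS : Subgroup.closure {x | ∃ k ∈ S, k⁻¹ * (z * k * z) = x} ≤ S := by
      rw [Subgroup.closure_le]
      rintro _ ⟨k, hk, rfl⟩
      exact S.mul_mem (S.inv_mem hk) (hzS k hk)
    have hTn : ∀ s ∈ S, ∀ x ∈ Subgroup.closure {x | ∃ k ∈ S, k⁻¹ * (z * k * z) = x},
        s * x * s⁻¹ ∈ Subgroup.closure {x | ∃ k ∈ S, k⁻¹ * (z * k * z) = x} := by
      intro s hs x hx
      induction hx using Subgroup.closure_induction with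
      | mem x hx =>
        obtain ⟨k, hk, rfl⟩ := hx
        have e1 : s * (k⁻¹ * (z * k * z)) * s⁻¹ =
            ((k * s⁻¹)⁻¹ * (z * (k * s⁻¹) * z)) * (s⁻¹⁻¹ * (z * s⁻¹ * z))⁻¹ := by
          have e2 : (s⁻¹⁻¹ * (z * s⁻¹ * z))⁻¹ = z⁻¹ * s * z⁻¹ * s⁻¹ := by group
          rw [e2, hzi]
          calc s * (k⁻¹ * (z * k * z)) * s⁻¹ =
                s * k⁻¹ * z * k * s⁻¹ * (z * z) * s * z * s⁻¹ := by rw [hzz]; group
            _ = _ := by group
        rw [e1]
        exact Subgroup.mul_mem _ (Subgroup.subset_closure ⟨_, S.mul_mem hk (S.inv_mem hs), rfl⟩)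
          (Subgroup.inv_mem _ (Subgroup.subset_closure ⟨_, S.inv_mem hs, rfl⟩))
      | one => simp
      | mul a b _ _ ha hb =>
        have e1 : s * (a * b) * s⁻¹ = (s * a * s⁻¹) * (s * b * s⁻¹) := by group
        rw [e1]
        exact Subgroup.mul_mem _ ha hb
      | inv a _ ha =>
        have e1 : s * a⁻¹ * s⁻¹ = (s * a * s⁻¹)⁻¹ := by group
        rw [e1]
        exact Subgroup.inv_mem _ ha
    rcases hm.simple hTS hTn with h1 | h1
    · exfalso
      apply hzs₀
      have h2 : s₀⁻¹ * (z * s₀ * z) ∈ (⊥ : Subgroup (Perm Q)) := by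
        rw [← h1]
        exact Subgroup.subset_closure ⟨s₀, hs₀, rfl⟩
      rw [Subgroup.mem_bot] at h2
      calc z * s₀ = s₀ * (s₀⁻¹ * (z * s₀ * z)) * z⁻¹ := by group
        _ = s₀ * z := by rw [h2, mul_one, hzi]
    · exact h1.symm
  obtain ⟨x, hJx, hxe, rfl⟩ := hzE
  have hBI : SN.CN N S ≤ Inn G e := fun a ha => hm.le ha.1
  have hint := SN.interchange (t := L x) (A := S) (B := SN.CN N S) hJJ hzz
    (fun a ha => h.comJ a (hSI ha).1 (hSI ha).2) (fun b hb => h.comJ b (hBI hb).1 (hBI hb).2)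
    (fun a ha => h.J_star hJx hxe (hSI ha)) hSB hzS hzB
    (fun a ha b hb => h.Wstar hJx hxe ((Inn G e).mul_mem (hSI ha) (hBI hb))) hgen.le hm.perfect
  set z := D L J x * J with hz
  obtain ⟨τ, hτ, hτ1, hττ⟩ := hm.invol heven
  obtain ⟨v, hv, hvev⟩ := SN.even_elt (t := L x) (S := S)
    (K := {b | b ∈ S ∧ Odd (orderOf b) ∧ z * b * z = b⁻¹}) hJJ
    (fun a ha => h.comJ a (hSI ha).1 (hSI ha).2)
    (fun b hb => by
      rw [h.J_star hJx hxe (hSI hb.1), ← hz, hb.2.2]
      group)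
    (fun b hb => hb.2.1)
    (fun b hb => by
      obtain ⟨-, -, h1⟩ := h.key' hJx (hSI hb.1) hb.2.1 hb.2.2
      calc L x * b * (L x)⁻¹ * b = L x * (b * ((L x)⁻¹ * b * L x)) * (L x)⁻¹ := by group
        _ = L x * (((L x)⁻¹ * b * L x) * b) * (L x)⁻¹ := by rw [h1]
        _ = b * (L x * b * (L x)⁻¹) := by group)
    (fun b hb c hc => h.mid hJx hxe hSI hzS hev hb.1 hc.1 hb.2.1 hc.2.1 hb.2.2 hc.2.2)
    (fun b hb => hb.1)
    (by
      conv_lhs => rw [hgen]
      rw [Subgroup.closure_le]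
      rintro _ ⟨k, hk, rfl⟩
      apply Subgroup.subset_closure
      have e1 : k⁻¹ * (z * k * z) = (z * (k⁻¹ * z * k⁻¹⁻¹))⁻¹ := by
        have e2 : (z * (k⁻¹ * z * k⁻¹⁻¹))⁻¹ = k⁻¹ * (z⁻¹ * k * z⁻¹) := by group
        rw [e2, hzi]
      refine ⟨S.mul_mem (S.inv_mem hk) (hzS k hk), ?_, ?_⟩
      · rw [e1, orderOf_inv]
        exact hev _ (S.inv_mem hk)
      · have e3 : z * (k⁻¹ * (z * k * z)) * z = z * k⁻¹ * z * k * (z * z) := by group
        have e4 : (k⁻¹ * (z * k * z))⁻¹ = z⁻¹ * k⁻¹ * z⁻¹ * k := by group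
        rw [e3, e4, hzz, hzi, mul_one])
    hm.scenter hτ hτ1 hττ
  have hvG : v ∈ G := by
    have h1 : S ⊔ S.map (MulAut.conj (L x)).toMonoidHom ≤ G := by
      apply sup_le
      · exact fun a ha => (hSI ha).1
      · rintro _ ⟨a, ha, rfl⟩
        show L x * a * (L x)⁻¹ ∈ G
        exact G.mul_mem (G.mul_mem (h.memL x) (hSI ha).1) (G.inv_mem (h.memL x))
    exact h1 hv
  obtain ⟨p, hJp, hpe, n, hpn⟩ := h.point_of_even hvG hvev
  refine ⟨p, hJp, hpe, fun b hb => ?_⟩
  have hvb : Commute v b := by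
    have h1 : S ⊔ S.map (MulAut.conj (L x)).toMonoidHom ≤ Subgroup.centralizer {b} := by
      apply sup_le
      · intro a ha
        rw [Subgroup.mem_centralizer_singleton_iff]
        exact hSB a ha b hb
      · rintro _ ⟨a, ha, rfl⟩
        rw [Subgroup.mem_centralizer_singleton_iff]
        exact hint a ha b hb
    have h2 := h1 hv
    rw [Subgroup.mem_centralizer_singleton_iff] at h2
    exact h2
  have hJb : Commute J b := (h.comJ b (hBI hb).1 (hBI hb).2).symm
  have h3 : Commute (J * v * J * v⁻¹) b :=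
    ((hJb.mul_left hvb).mul_left hJb).mul_left hvb.inv_left
  rw [hpn]
  exact (h3.pow_left n).eq

end AL

end ALoop
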