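import Pool.Agent.H4.SN.Exi
import Pool.Agent.H4.SN.Cmm
import Pool.Agent.H4.Loop.Final
import Pool.Agent.H86.UN.Eight

/-!
Step (6).
-/

namespace ALoop

open Equiv Pool.Agent.H4
open scoped commutatorElement

variable {Q : Type*} {G : Subgroup (Perm Q)} {L : Q → Perm Q} {J : Perm Q} {e : Q}

namespace AL

/-- a subgroup normalised by the inner mappings and by some element which moves `e` is normalised
by `G` -/
theorem norm_all (h : AL G L J e) {S : Subgroup (Perm Q)}
    (hSn : ∀ g ∈ G, g e = e → ∀ s ∈ S, g * s * g⁻¹ ∈ S)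
    {g : Perm Q} (hg : g ∈ G) (hge : g e ≠ e) (hn : ∀ s, s ∈ S ↔ g * s * g⁻¹ ∈ S) : Nm G S := by
  have hiff : ∀ k ∈ G, k e = e → ∀ s, s ∈ S ↔ k⁻¹ * s * k ∈ S := by
    intro k hk hke s
    constructor
    · intro hs
      have := hSn k⁻¹ (G.inv_mem hk) (by rw [Perm.inv_eq_iff_eq]; exact hke.symm) s hs
      simpa using this
    · intro hs
      have := hSn k hk hke _ hs
      have e1 : k * (k⁻¹ * s * k) * k⁻¹ = s := by group
      rwa [e1] at this
  have hset : ∀ k ∈ G, ∀ s, (L (k e))⁻¹ * s * L (k e) ∈ S ↔ k⁻¹ * s * k ∈ S := by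
    intro k hk s
    have hv := h.fix_part hk
    rw [hiff _ hv.1 hv.2 ((L (k e))⁻¹ * s * L (k e))]
    have e1 : ((L (k e))⁻¹ * k)⁻¹ * ((L (k e))⁻¹ * s * L (k e)) * ((L (k e))⁻¹ * k) =
        k⁻¹ * s * k := by group
    rw [e1]
  have key := h.prim_map (fun a => {s : Perm Q | (L a)⁻¹ * s * L a ∈ S}) (by
    intro k hk a b hab
    simp only [Set.ext_iff, Set.mem_ofPred_eq] at hab ⊢
    intro s
    have h1 : ∀ c : Q, (L (k c))⁻¹ * s * L (k c) ∈ S ↔ (L c)⁻¹ * (k⁻¹ * s * k) * L c ∈ S := by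
      intro c
      have h2 := hset (k * L c) (G.mul_mem hk (h.memL c)) s
      rw [Perm.mul_apply, h.Le] at h2
      rw [h2]
      have e1 : (k * L c)⁻¹ * s * (k * L c) = (L c)⁻¹ * (k⁻¹ * s * k) * L c := by group
      rw [e1]
    rw [h1 a, h1 b]
    exact hab _)
  rcases key with hk | hk
  · exfalso
    apply hge
    apply hk
    simp only [Set.ext_iff, Set.mem_ofPred_eq]
    intro s
    rw [hset g hg s, h.Le1]
    have := hn (g⁻¹ * s * g)
    rw [this]
    have e1 : g * (g⁻¹ * s * g) * g⁻¹ = s := by group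
    rw [e1]; simp
  · intro k hkG s hs
    have h1 := hk (k⁻¹ e) e
    simp only [Set.ext_iff, Set.mem_ofPred_eq] at h1
    have h2 := (h1 s).2 (by rw [h.Le1]; simpa using hs)
    have h3 := (hset k⁻¹ (G.inv_mem hkG) s).1 h2
    simpa using h3

/-- `x` is an involution and `z_x` centralises the centraliser of `T` in `N` -/
def XX (L : Q → Perm Q) (J : Perm Q) (e : Q) (N T : Subgroup (Perm Q)) (x : Q) : Prop :=
  J x = x ∧ x ≠ e ∧ ∀ b ∈ SN.CN N T, (D L J x * J) * b = b * (D L J x * J)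

/-- the generators of `V_T` -/
def gensT (L : Q → Perm Q) (J : Perm Q) (e : Q) (N T : Subgroup (Perm Q)) : Set (Perm Q) :=
  {g | g ∈ T ∨ ∃ x, XX L J e N T x ∧ ∃ s ∈ T, g = L x * s * (L x)⁻¹}

theorem gensT_comm [Finite Q] (h : AL G L J e) {N S S' : Subgroup (Perm Q)}
    (hm : SN.Mini (Inn G e) N S) (hm' : SN.Mini (Inn G e) N S') (hne : S ≠ S') :
    ∀ a ∈ gensT L J e N S, ∀ b ∈ gensT L J e N S', a * b = b * a := by
  have hS' : S' ≤ SN.CN N S := hm.two hm' hne
  have hS : S ≤ SN.CN N S' := hm'.two hm hne.symm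
  have c1 : ∀ s ∈ S, ∀ s' ∈ S', s * s' = s' * s := by
    intro s hs s' hs'
    exact (Subgroup.mem_centralizer_iff.1 (hS' hs').2 s hs)
  have aux : ∀ {T T' : Subgroup (Perm Q)}, SN.Mini (Inn G e) N T → T ≤ SN.CN N T' →
      (∀ s ∈ T, ∀ s' ∈ T', s * s' = s' * s) →
      ∀ s ∈ T, ∀ y, XX L J e N T' y → ∀ s' ∈ T', s * (L y * s' * (L y)⁻¹) =
        (L y * s' * (L y)⁻¹) * s := by
    intro T T' hmT hT c s hs y hy s' hs'
    have hsI : s ∈ Inn G e := hmT.le (hmT.nb.1 hs)
    have h1 := hy.2.2 s (hT hs)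
    have h2 : s y = y := (h.EE_cent hsI).1 h1.symm
    have h3 := h.comL hsI.1 hsI.2 h2
    have h4 := c s hs s' hs'
    have h5 : Commute s (L y) := h3
    have h6 : Commute s s' := h4
    exact ((h5.mul_right h6).mul_right h5.inv_right).eq
  rintro a (ha | ⟨x, hx, s, hs, rfl⟩) b (hb | ⟨y, hy, s', hs', rfl⟩)
  · exact c1 a ha b hb
  · exact aux hm hS c1 a ha y hy s' hs'
  · exact (aux hm' hS' (fun s hs s' hs' => (c1 s' hs' s hs).symm) b hb x hx s hs).symm
  · exact h.star_comm hm hm' hne hx.1 hx.2.1 hy.1 hy.2.1 hx.2.2 hy.2.2 s hs s' hs'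

theorem closure_comm {M : Type*} [Group M] {A B : Set M} (hab : ∀ a ∈ A, ∀ b ∈ B, a * b = b * a) :
    ∀ a ∈ Subgroup.closure A, ∀ b ∈ Subgroup.closure B, a * b = b * a := by
  have h1 : ∀ a ∈ A, ∀ b ∈ Subgroup.closure B, a * b = b * a := by
    intro a ha b hb
    induction hb using Subgroup.closure_induction with
    | mem x hx => exact hab a ha x hx
    | one => simp
    | mul x y _ _ hx hy =>
      exact ((show Commute a x from hx).mul_right (show Commute a y from hy)).eq
    | inv x _ hx => exact (show Commute a x from hx).inv_right.eq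
  intro a ha b hb
  induction ha using Subgroup.closure_induction with
  | mem x hx => exact h1 x hx b hb
  | one => simp
  | mul x y _ _ hx hy =>
    exact ((show Commute x b from hx).mul_left (show Commute y b from hy)).eq
  | inv x _ hx => exact (show Commute x b from hx).inv_left.eq

/-- the generators are permuted by the inner mappings -/
theorem gensT_conj [Finite Q] (h : AL G L J e) {N S : Subgroup (Perm Q)}
    (hm : SN.Mini (Inn G e) N S) {k : Perm Q} (hk : k ∈ Inn G e) {a : Perm Q}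
    (ha : a ∈ gensT L J e N S) : k * a * k⁻¹ ∈ gensT L J e N (UM.cj k S) := by
  rcases ha with ha | ⟨x, hx, s, hs, rfl⟩
  · left
    rw [UM.mem_cj]
    have e1 : k⁻¹ * (k * a * k⁻¹) * k = a := by group
    rw [e1]; exact ha
  · right
    have hkJ := h.comJ k hk.1 hk.2
    refine ⟨k x, ⟨?_, ?_, ?_⟩, k * s * k⁻¹, ?_, ?_⟩
    · rw [← Perm.mul_apply, ← hkJ, Perm.mul_apply, hx.1]
    · intro h1
      apply hx.2.1
      apply k.injective
      rw [h1]
      exact hk.2.symm
    · intro b hb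
      have h2 : k⁻¹ * b * k ∈ SN.CN N S := by
        refine ⟨?_, ?_⟩
        · have := hm.inv k⁻¹ ((Inn G e).inv_mem hk) b hb.1
          rwa [inv_inv] at this
        · show k⁻¹ * b * k ∈ Subgroup.centralizer (S : Set (Perm Q))
          rw [Subgroup.mem_centralizer_iff]
          intro t ht
          have h3 : k * t * k⁻¹ ∈ UM.cj k S := by
            rw [UM.mem_cj]
            have e1 : k⁻¹ * (k * t * k⁻¹) * k = t := by group
            rw [e1]; exact ht
          have h4 := Subgroup.mem_centralizer_iff.1 hb.2 _ h3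
          calc t * (k⁻¹ * b * k) = k⁻¹ * ((k * t * k⁻¹) * b) * k := by group
            _ = k⁻¹ * (b * (k * t * k⁻¹)) * k := by rw [h4]
            _ = k⁻¹ * b * k * t := by group
      have h3 := hx.2.2 _ h2
      have h4 : D L J (k x) * J = k * (D L J x * J) * k⁻¹ := by
        rw [← h.D_conj hk.1]
        calc k * D L J x * k⁻¹ * J = k * D L J x * (k⁻¹ * J) := by group
          _ = k * D L J x * (J * k⁻¹) := by
            have : k⁻¹ * J = J * k⁻¹ := by
              calc k⁻¹ * J = k⁻¹ * (J * k) * k⁻¹ := by group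
                _ = k⁻¹ * (k * J) * k⁻¹ := by rw [hkJ]
                _ = J * k⁻¹ := by group
            rw [this]
          _ = k * (D L J x * J) * k⁻¹ := by group
      rw [h4]
      calc k * (D L J x * J) * k⁻¹ * b = k * ((D L J x * J) * (k⁻¹ * b * k)) * k⁻¹ := by group
        _ = k * ((k⁻¹ * b * k) * (D L J x * J)) * k⁻¹ := by rw [h3]
        _ = b * (k * (D L J x * J) * k⁻¹) := by group
    · rw [UM.mem_cj]
      have e1 : k⁻¹ * (k * s * k⁻¹) * k = s := by group
      rw [e1]; exact hs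
    · rw [← h.equi k hk.1 hk.2 x]
      group

/-- S6: step (6) -/
theorem eq_top_min [Finite Q] (h : AL G L J e) (hna : ¬ Assoc L) (hcardQ : 2 ∣ Nat.card Q)
    {N S : Subgroup (Perm Q)} (hm : SN.Mini (Inn G e) N S) (heven : Even (Nat.card N)) : S = N := by
  by_contra hne
  obtain ⟨k₀, hk₀, hk₀S⟩ := hm.exists_cj hne
  obtain ⟨x, hJx, hxe, hx⟩ := h.exists_inv hcardQ hm hne heven
  -- the group `V`
  set gens : Set (Perm Q) := {g | ∃ T, SN.Mini (Inn G e) N T ∧ g ∈ gensT L J e N T} with hgens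
  set V : Subgroup (Perm Q) := Subgroup.closure gens with hV
  have hgG : ∀ T, SN.Mini (Inn G e) N T → ∀ g ∈ gensT L J e N T, g ∈ G := by
    rintro T hT g (hg | ⟨y, hy, s, hs, rfl⟩)
    · exact (hT.le (hT.nb.1 hg)).1
    · exact G.mul_mem (G.mul_mem (h.memL y) (hT.le (hT.nb.1 hs)).1) (G.inv_mem (h.memL y))
  have hVG : V ≤ G := by
    rw [hV, Subgroup.closure_le]
    rintro g ⟨T, hT, hg⟩
    exact hgG T hT g hg
  have hVn : ∀ g ∈ G, g e = e → ∀ s ∈ V, g * s * g⁻¹ ∈ V := by
    intro k hkG hke s hs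
    have hk : k ∈ Inn G e := ⟨hkG, hke⟩
    induction hs using Subgroup.closure_induction with
    | mem a ha =>
      obtain ⟨T, hT, ha⟩ := ha
      exact Subgroup.subset_closure ⟨_, hT.cj_mini hk, h.gensT_conj hT hk ha⟩
    | one => simp
    | mul a b _ _ ha hb =>
      have e1 : k * (a * b) * k⁻¹ = (k * a * k⁻¹) * (k * b * k⁻¹) := by group
      rw [e1]; exact V.mul_mem ha hb
    | inv a _ ha =>
      have e1 : k * a⁻¹ * k⁻¹ = (k * a * k⁻¹)⁻¹ := by group
      rw [e1]; exact V.inv_mem ha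
  -- an element of `V` which moves `e`
  have hzx : D L J x * J ∈ EE L J e := ⟨x, hJx, hxe, rfl⟩
  have hz1 : D L J x * J ≠ 1 := h.Z_ne (h.zx_mem hJx hxe)
  obtain ⟨s₀, hs₀, hs₀x⟩ : ∃ s ∈ S, s x ≠ x := by
    by_contra hcon
    push Not at hcon
    apply hz1
    apply hm.eq_one (h.EE_Inn hzx) _ hx
    intro s hs
    exact ((h.EE_cent (hm.le (hm.nb.1 hs))).2 (hcon s hs)).symm
  have hLxx := h.LxLx hJx
  have hgV : L x * s₀ * (L x)⁻¹ ∈ V :=
    Subgroup.subset_closure ⟨S, hm, Or.inr ⟨x, ⟨hJx, hxe, hx⟩, s₀, hs₀, rfl⟩⟩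
  have hge : (L x * s₀ * (L x)⁻¹) e ≠ e := by
    have hLie : (L x)⁻¹ e = x := by rw [Perm.inv_eq_iff_eq]; exact hLxx.symm
    show L x (s₀ ((L x)⁻¹ e)) ≠ e
    rw [hLie]
    intro h1
    apply hs₀x
    apply (L x).injective
    rw [h1, hLxx]
  have hNmV : Nm G V := h.norm_all hVn (hVG hgV) hge (by
    intro s
    constructor
    · intro hs; exact V.mul_mem (V.mul_mem hgV hs) (V.inv_mem hgV)
    · intro hs
      have h1 := V.mul_mem (V.mul_mem (V.inv_mem hgV) hs) hgV
      have e1 : (L x * s₀ * (L x)⁻¹)⁻¹ * (L x * s₀ * (L x)⁻¹ * s * (L x * s₀ * (L x)⁻¹)⁻¹) *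
        (L x * s₀ * (L x)⁻¹) = s := by group
      rwa [e1] at h1)
  obtain ⟨N₀, hN₀G, hN₀, hN₀ne, hmin, hnab, hcent, -⟩ := structure_thm h hna
  have hTV : ∀ T, SN.Mini (Inn G e) N T → Subgroup.closure (gensT L J e N T) ≤ V := by
    intro T hT
    rw [Subgroup.closure_le]
    intro g hg
    exact Subgroup.subset_closure ⟨T, hT, hg⟩
  have hN₀V : N₀ ≤ V := by
    have h1 : Nm N₀ (N₀ ⊓ V) := fun n hn m hm' =>
      ⟨N₀.mul_mem (N₀.mul_mem hn hm'.1) (N₀.inv_mem hn), hNmV n (hN₀G hn) m hm'.2⟩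
    rcases hmin _ inf_le_left h1 with h2 | h2
    · exfalso
      have h3 : ∀ a ∈ N₀, ∀ b ∈ V, a * b = b * a := by
        intro a ha b hb
        refine comm_of_inf (fun g hg m hm' => hN₀ g (hVG hg) m hm')
          (fun g hg m hm' => hNmV g (hN₀G hg) m hm') ?_ ha hb
        intro y hy1 hy2
        have : y ∈ N₀ ⊓ V := ⟨hy1, hy2⟩
        rwa [h2, Subgroup.mem_bot] at this
      have h4 := hcent _ (hVG hgV) (fun n hn => (h3 n hn _ hgV).symm)
      apply hge
      rw [h4]; rfl
    · rw [← h2]; exact inf_le_right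
  have key : ∀ T, SN.Mini (Inn G e) N T → N₀ ≤ Subgroup.closure (gensT L J e N T) := by
    intro T hT
    have hVT : ∀ g ∈ V, ∀ m ∈ Subgroup.closure (gensT L J e N T),
        g * m * g⁻¹ ∈ Subgroup.closure (gensT L J e N T) := by
      intro g hg
      induction hg using Subgroup.closure_induction with
      | mem a ha =>
        obtain ⟨T', hT', ha⟩ := ha
        intro m hm'
        by_cases hTT : T' = T
        · rw [hTT] at ha
          have ha' : a ∈ Subgroup.closure (gensT L J e N T) := Subgroup.subset_closure ha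
          exact Subgroup.mul_mem _ (Subgroup.mul_mem _ ha' hm') (Subgroup.inv_mem _ ha')
        · have h1 := closure_comm (h.gensT_comm hT' hT hTT) a (Subgroup.subset_closure ha) m hm'
          rw [h1, mul_inv_cancel_right]; exact hm'
      | one => intro m hm'; simpa using hm'
      | mul a b _ _ ha hb =>
        intro m hm'
        have e1 : a * b * m * (a * b)⁻¹ = a * (b * m * b⁻¹) * a⁻¹ := by group
        rw [e1]; exact ha _ (hb m hm')
      | inv a ha' ha =>
        intro m hm'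
        have hinj : Function.Injective (fun m : Subgroup.closure (gensT L J e N T) =>
            (⟨a * m * a⁻¹, ha m m.2⟩ : Subgroup.closure (gensT L J e N T))) := by
          intro m₁ m₂ h12
          have h13 := congrArg Subtype.val h12
          simp only at h13
          apply Subtype.ext
          have := mul_right_cancel h13
          exact mul_left_cancel this
        obtain ⟨m₁, hm₁⟩ := (Finite.injective_iff_surjective.1 hinj) ⟨m, hm'⟩
        have hm₂ := congrArg Subtype.val hm₁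
        simp only at hm₂
        have e1 : a⁻¹ * m * a⁻¹⁻¹ = m₁ := by rw [← hm₂]; group
        rw [e1]; exact m₁.2
    have h1 : Nm N₀ (N₀ ⊓ Subgroup.closure (gensT L J e N T)) := fun n hn m hm' =>
      ⟨N₀.mul_mem (N₀.mul_mem hn hm'.1) (N₀.inv_mem hn), hVT n (hN₀V hn) m hm'.2⟩
    rcases hmin _ inf_le_left h1 with h2 | h2
    · exfalso
      have h3 : ∀ a ∈ N₀, ∀ b ∈ Subgroup.closure (gensT L J e N T), a * b = b * a := by
        intro a ha b hb
        refine comm_of_inf (fun g hg m hm' => hN₀ g (hVG (hTV T hT hg)) m hm')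
          (fun g hg m hm' => hVT g (hN₀V hg) m hm') ?_ ha hb
        intro y hy1 hy2
        have : y ∈ N₀ ⊓ Subgroup.closure (gensT L J e N T) := ⟨hy1, hy2⟩
        rwa [h2, Subgroup.mem_bot] at this
      apply hT.sne
      rw [Subgroup.eq_bot_iff_forall]
      intro t ht
      have ht' : t ∈ Subgroup.closure (gensT L J e N T) := Subgroup.subset_closure (Or.inl ht)
      exact hcent _ (hVG (hTV T hT ht')) (fun n hn => (h3 n hn _ ht').symm)
    · rw [← h2]; exact inf_le_right
  obtain ⟨a, ha, b, hb, hab⟩ := hnab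
  apply hab
  exact closure_comm (h.gensT_comm (hm.cj_mini hk₀) hm hk₀S) a (key _ (hm.cj_mini hk₀) ha) b
    (key _ hm hb)

end AL

end ALoop
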