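import Pool.Agent.H4.SN.Def

/-!
Minimal normal subgroups of a minimal invariant subgroup, part A. Author: helper82.
-/

open scoped commutatorElement

namespace Pool.Agent.H4.SN

namespace Mini
variable {M : Type*} [Group M] {K N S : Subgroup M}

theorem comm_of_comm {a b : M} (h : a * b * a⁻¹ * b⁻¹ = 1) : a * b = b * a := by
  have e : a * b = (a * b * a⁻¹ * b⁻¹) * (b * a) := by group
  rw [e, h, one_mul]

theorem prod [Finite M] (h : Mini K N S) : ∀ n ∈ N, ∃ b ∈ CN N S, ∃ s ∈ S, b * s = n := by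
  obtain ⟨C, hC, hCS, hall⟩ := UM.compl h.inv h.ne h.min h.nb
  intro n hn
  obtain ⟨m, hm, s, hs, e⟩ := hall n hn
  refine ⟨m, ⟨hC.1 hm, ?_⟩, s, hs, e⟩
  refine Subgroup.mem_centralizer_iff.2 ?_
  intro t ht
  have h1 : m * t * m⁻¹ * t⁻¹ ∈ C ⊓ S := by
    refine ⟨?_, S.mul_mem (h.nb.2 m (hC.1 hm) t ht) (S.inv_mem ht)⟩
    have h2 := hC.2 t (h.nb.1 ht) m⁻¹ (C.inv_mem hm)
    have e : m * t * m⁻¹ * t⁻¹ = m * (t * m⁻¹ * t⁻¹) := by group
    rw [e]
    exact C.mul_mem hm h2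
  rw [hCS, Subgroup.mem_bot] at h1
  exact (comm_of_comm h1).symm

theorem scenter [Finite M] (h : Mini K N S) : ∀ x ∈ S, (∀ y ∈ S, x * y = y * x) → x = 1 := by
  intro x hx hc
  apply h.center x (h.nb.1 hx)
  intro y hy
  obtain ⟨b, hb, s, hs, rfl⟩ := h.prod y hy
  have h1 : x * b = b * x := (Subgroup.mem_centralizer_iff.1 hb.2) x hx
  rw [← mul_assoc, h1, mul_assoc, hc s hs, ← mul_assoc]

theorem perfect [Finite M] (h : Mini K N S) : S ≤ ⁅S, S⁆ :=
  UM.perfect_of_normal h.inv h.ne h.min h.center h.nb.1 h.nb.2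

theorem simple [Finite M] (h : Mini K N S) {T : Subgroup M} (hT : T ≤ S)
    (hn : ∀ s ∈ S, ∀ x ∈ T, s * x * s⁻¹ ∈ T) : T = ⊥ ∨ T = S := by
  refine h.smin T ⟨hT.trans h.nb.1, ?_⟩ hT
  intro y hy x hx
  obtain ⟨b, hb, s, hs, rfl⟩ := h.prod y hy
  have h1 := hn s hs x hx
  have h2 : s * x * s⁻¹ * b = b * (s * x * s⁻¹) := (Subgroup.mem_centralizer_iff.1 hb.2) _ (hT h1)
  have e : b * s * x * (b * s)⁻¹ = b * (s * x * s⁻¹) * b⁻¹ := by group
  rw [e, ← h2, mul_inv_cancel_right]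
  exact h1

theorem cj_mini [Finite M] (h : Mini K N S) {g : M} (hg : g ∈ K) : Mini K N (UM.cj g S) := by
  refine ⟨h.inv, h.le, h.ne, h.min, h.center, h.cent, UM.NB_cj h.inv h.nb hg, ?_, ?_⟩
  · intro hbot
    apply h.sne
    rw [eq_bot_iff]
    intro s hs
    have h1 : g * s * g⁻¹ ∈ UM.cj g S := by
      rw [UM.mem_cj]
      have e : g⁻¹ * (g * s * g⁻¹) * g = s := by group
      rwa [e]
    rw [hbot, Subgroup.mem_bot] at h1
    have e : s = g⁻¹ * (g * s * g⁻¹) * g := by group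
    rw [Subgroup.mem_bot, e, h1]
    group
  · intro C hC hCS
    have h1 : UM.cj g⁻¹ C ≤ S := by
      intro x hx
      have h2 := hCS (UM.mem_cj.1 hx)
      rw [UM.mem_cj] at h2
      have e : g⁻¹ * (g⁻¹⁻¹ * x * g⁻¹) * g = x := by group
      rwa [e] at h2
    have key : ∀ x, g⁻¹⁻¹ * (g⁻¹ * x * g) * g⁻¹ = x := fun x => by group
    rcases h.smin _ (UM.NB_cj h.inv hC (K.inv_mem hg)) h1 with h2 | h2
    · left
      rw [eq_bot_iff]
      intro c hc
      have h3 : g⁻¹ * c * g ∈ UM.cj g⁻¹ C := by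
        rw [UM.mem_cj, key]
        exact hc
      rw [h2, Subgroup.mem_bot] at h3
      have e : c = g * (g⁻¹ * c * g) * g⁻¹ := by group
      rw [Subgroup.mem_bot, e, h3]
      group
    · right
      refine le_antisymm hCS ?_
      intro x hx
      rw [UM.mem_cj, ← h2, UM.mem_cj, key] at hx
      exact hx

/-- two of them: equal or commuting -/
theorem two [Finite M] {S' : Subgroup M} (h : Mini K N S) (h' : Mini K N S') (hne : S ≠ S') :
    S' ≤ CN N S := by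
  have h1 : S ⊓ S' = ⊥ := by
    rcases h.smin _ (UM.NB_inf h.nb h'.nb) inf_le_left with h2 | h2
    · exact h2
    · exfalso
      have h3 : S ≤ S' := inf_eq_left.1 h2
      rcases h'.smin S h.nb h3 with h4 | h4
      · exact h.sne h4
      · exact hne h4
  intro x hx
  refine ⟨h'.nb.1 hx, ?_⟩
  refine Subgroup.mem_centralizer_iff.2 ?_
  intro s hs
  have h2 : s * x * s⁻¹ * x⁻¹ ∈ S ⊓ S' := by
    refine ⟨?_, S'.mul_mem (h'.nb.2 s (h.nb.1 hs) x hx) (S'.inv_mem hx)⟩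
    have h3 := h.nb.2 x (h'.nb.1 hx) s⁻¹ (S.inv_mem hs)
    have e : s * x * s⁻¹ * x⁻¹ = s * (x * s⁻¹ * x⁻¹) := by group
    rw [e]
    exact S.mul_mem hs h3
  rw [h1, Subgroup.mem_bot] at h2
  exact comm_of_comm h2

theorem cj_or [Finite M] (h : Mini K N S) {g : M} (hg : g ∈ K) :
    UM.cj g S = S ∨ UM.cj g S ≤ CN N S := by
  by_cases h1 : UM.cj g S = S
  · exact Or.inl h1
  · exact Or.inr (two h (cj_mini h hg) (Ne.symm h1))

end Mini

end Pool.Agent.H4.SN
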