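import Pool.Agent.H4.SN.MinA

/-!
Minimal normal subgroups of a minimal invariant subgroup, part B. Author: helper8.
-/

open scoped commutatorElement

namespace Pool.Agent.H4.SN

namespace Mini
variable {M : Type*} [Group M] {K N S : Subgroup M}

private theorem mem_cj_conj {g s : M} (hs : s ∈ S) : g * s * g⁻¹ ∈ UM.cj g S := by
  rw [UM.mem_cj]
  have e : g⁻¹ * (g * s * g⁻¹) * g = s := by group
  rwa [e]

private theorem invol_of_even [Finite M] {T : Subgroup M} (h : Even (Nat.card T)) :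
    ∃ τ ∈ T, τ ≠ 1 ∧ τ * τ = 1 := by
  haveI : Fact (Nat.Prime 2) := ⟨Nat.prime_two⟩
  obtain ⟨x, hx⟩ := exists_prime_orderOf_dvd_card' (G := T) 2 (even_iff_two_dvd.1 h)
  refine ⟨x.1, x.2, ?_, ?_⟩
  · intro h1
    have h2 : x = 1 := Subtype.ext h1
    rw [h2, orderOf_one] at hx
    norm_num at hx
  · have h1 := pow_orderOf_eq_one x
    rw [hx, pow_two] at h1
    exact congrArg Subtype.val h1

/-- an involution of `M` is not in a subgroup of odd order -/
private theorem odd_absurd [Finite M] {T : Subgroup M} (hT : Odd (Nat.card T)) {x : M}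
    (hx : x ∈ T) (h1 : x ≠ 1) (h2 : x * x = 1) : False := by
  have h3 : (⟨x, hx⟩ : T) ^ Nat.card T = 1 := pow_card_eq_one'
  have h4 : x ^ Nat.card T = 1 := congrArg Subtype.val h3
  obtain ⟨k, hk⟩ := hT
  rw [hk, pow_succ, pow_mul, pow_two, h2, one_pow, one_mul] at h4
  exact h1 h4

private theorem pow_mod {O : Subgroup M} (hO : UM.NB N O) {o s : M} (ho : o ∈ O) (hs : s ∈ N)
    (n : ℕ) : (o * s) ^ n * (s ^ n)⁻¹ ∈ O := by
  induction n with
  | zero => simp
  | succ n ih =>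
    have h1 : s ^ n * o * (s ^ n)⁻¹ ∈ O := hO.2 _ (N.pow_mem hs n) _ ho
    have e : (o * s) ^ (n + 1) * (s ^ (n + 1))⁻¹ =
        ((o * s) ^ n * (s ^ n)⁻¹) * (s ^ n * o * (s ^ n)⁻¹) := by
      rw [pow_succ, pow_succ]
      group
    rw [e]
    exact O.mul_mem ih h1

theorem invol [Finite M] (h : Mini K N S) (heven : Even (Nat.card N)) :
    ∃ τ ∈ S, τ ≠ 1 ∧ τ * τ = 1 := by
  classical
  rcases Nat.even_or_odd (Nat.card S) with hS | hS
  · exact invol_of_even hS
  exfalso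
  have hne : ({O | UM.NB N O ∧ Odd (Nat.card O)} : Set (Subgroup M)).Nonempty := by
    refine ⟨⊥, ⟨bot_le, ?_⟩, ?_⟩
    · intro b _ n hn
      rw [Subgroup.mem_bot] at hn ⊢
      rw [hn]; group
    · simp
  obtain ⟨O, hO⟩ :=
    (Set.toFinite ({O | UM.NB N O ∧ Odd (Nat.card O)} : Set (Subgroup M))).exists_maximal hne
  obtain ⟨⟨hON, hOodd⟩, hmax⟩ := hO
  have key : ∀ g ∈ K, UM.cj g S ≤ O := by
    intro g hg
    have hC : UM.NB N (UM.cj g S) := UM.NB_cj h.inv h.nb hg
    have hP := UM.NB_pr hON hC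
    have hodd : Odd (Nat.card (UM.pr N O (UM.cj g S) hON hC)) := by
      rw [← Nat.not_even_iff_odd]
      intro hev
      obtain ⟨x, ⟨o, ho, s, hs, rfl⟩, hx1, hx2⟩ := invol_of_even hev
      have hsn : s ^ Nat.card S = 1 := by
        have h1 : g⁻¹ * s * g ∈ S := UM.mem_cj.1 hs
        have h2 : (⟨g⁻¹ * s * g, h1⟩ : S) ^ Nat.card S = 1 := pow_card_eq_one'
        have h3 : (g⁻¹ * s * g) ^ Nat.card S = 1 := congrArg Subtype.val h2
        have h4 : (g⁻¹ * s * g⁻¹⁻¹) ^ Nat.card S = g⁻¹ * s ^ Nat.card S * g⁻¹⁻¹ := conj_pow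
        rw [inv_inv] at h4
        rw [h3] at h4
        calc s ^ Nat.card S = g * (g⁻¹ * s ^ Nat.card S * g) * g⁻¹ := by group
          _ = 1 := by rw [← h4]; group
      have h5 := pow_mod hON ho (hC.1 hs) (Nat.card S)
      rw [hsn, inv_one, mul_one] at h5
      obtain ⟨k, hk⟩ := hS
      rw [hk, pow_succ, pow_mul, pow_two, hx2, one_pow, one_mul] at h5
      exact odd_absurd hOodd h5 hx1 hx2
    have hle : UM.pr N O (UM.cj g S) hON hC ≤ O :=
      hmax ⟨hP, hodd⟩ (fun x hx => ⟨x, hx, 1, Subgroup.one_mem _, by simp⟩)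
    intro x hx
    exact hle ⟨1, O.one_mem, x, hx, by simp⟩
  have hNO : N ≤ O := UM.le_of_conj h.inv h.min h.nb h.sne
    (fun g hg s hs => key g hg (mem_cj_conj hs))
  have h1 := Subgroup.card_dvd_of_le hNO
  have h2 : 2 ∣ Nat.card O := (even_iff_two_dvd.1 heven).trans h1
  rw [← even_iff_two_dvd] at h2
  exact (Nat.not_even_iff_odd.2 hOodd) h2

/-- if `S ≠ N` there is a conjugate different from `S` -/
theorem exists_cj [Finite M] (h : Mini K N S) (hne : S ≠ N) : ∃ g ∈ K, UM.cj g S ≠ S := by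
  by_contra hcon
  push Not at hcon
  rcases h.min S (fun g hg a ha => by
    have h1 := mem_cj_conj (g := g) ha
    rwa [hcon g hg] at h1) h.nb.1 with h1 | h1
  · exact h.sne h1
  · exact hne h1

/-- an element which does not centralise `N` does not centralise some conjugate of `S` -/
theorem exists_nc [Finite M] (h : Mini K N S) {z : M} (hz : z ∈ K) (hz1 : z ≠ 1) :
    ∃ g ∈ K, ∃ s ∈ S, (g * z * g⁻¹) * s ≠ s * (g * z * g⁻¹) := by
  by_contra hcon
  push Not at hcon
  apply hz1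
  have h1 : N ≤ Subgroup.centralizer ({z} : Set M) := by
    refine UM.le_of_conj h.inv h.min h.nb h.sne ?_
    intro g hg s hs
    rw [Subgroup.mem_centralizer_singleton_iff]
    have h2 := hcon g⁻¹ (K.inv_mem hg) s hs
    have h3 : g * (g⁻¹ * z * g⁻¹⁻¹ * s) * g⁻¹ = g * (s * (g⁻¹ * z * g⁻¹⁻¹)) * g⁻¹ := by
      rw [h2]
    have e1 : g * (g⁻¹ * z * g⁻¹⁻¹ * s) * g⁻¹ = z * (g * s * g⁻¹) := by group
    have e2 : g * (s * (g⁻¹ * z * g⁻¹⁻¹)) * g⁻¹ = g * s * g⁻¹ * z := by group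
    rw [e1, e2] at h3
    first
      | exact h3
      | exact h3.symm
  apply h.cent z hz
  intro n hn
  have h2 := Subgroup.mem_centralizer_singleton_iff.1 (h1 hn)
  first
    | exact h2
    | exact h2.symm

/-- an element of `K` which centralises `S` and `CN N S` is 1 -/
theorem eq_one [Finite M] (h : Mini K N S) {g : M} (hg : g ∈ K) (h1 : ∀ s ∈ S, g * s = s * g)
    (h2 : ∀ s ∈ CN N S, g * s = s * g) : g = 1 := by
  apply h.cent g hg
  intro n hn
  obtain ⟨b, hb, s, hs, rfl⟩ := h.prod n hn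
  rw [← mul_assoc, h2 b hb, mul_assoc, h1 s hs, mul_assoc]

end Mini

end Pool.Agent.H4.SN
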